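import Pool.Agent.H93.AR.TargetsE

/-!
# BR board, module AQP: four averages at once
-/

set_option autoImplicit false

namespace Pool.Agent.H48.BR

open MeasureTheory Set FourierTransform
open Pool.Agent.H93.AR Pool.Agent.H83.LS Pool.Agent.H54.LS Pool.Agent.H83.AR
open scoped ENNReal NNReal SchwartzMap

/-- measurable and bounded -/
def MB {d : ℕ} (f : EE d → ℂ) : Prop := Measurable f ∧ ∃ B : ℝ, ∀ x, ‖f x‖ ≤ B

theorem MB.sub {d : ℕ} {f g : EE d → ℂ} (hf : MB f) (hg : MB g) : MB fun x => f x - g x := by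
  obtain ⟨hf1, B, hB⟩ := hf
  obtain ⟨hg1, C, hC⟩ := hg
  exact ⟨hf1.sub hg1, B + C, fun x => (norm_sub_le _ _).trans (add_le_add (hB x) (hC x))⟩

/-- the `L^p` norm -/
noncomputable def NN {d : ℕ} (p : ℝ) (f : EE d → ℂ) : ℝ≥0∞ := (∫⁻ x, ‖f x‖ₑ ^ p) ^ (1 / p)

theorem NN_add {d : ℕ} {p : ℝ} (hp : 1 ≤ p) {u v w : EE d → ℂ} (hu : Measurable u)
    (hv : Measurable v) (h : ∀ x, w x = u x + v x) : NN p w ≤ NN p u + NN p v := by
  have hp0 : 0 ≤ p := by linarith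
  refine le_trans ?_ (ENNReal.lintegral_Lp_add_le (f := fun x => ‖u x‖ₑ) (g := fun x => ‖v x‖ₑ)
    hu.enorm.aemeasurable hv.enorm.aemeasurable hp)
  refine ENNReal.rpow_le_rpow (lintegral_mono fun x => ?_) (by positivity)
  refine ENNReal.rpow_le_rpow ?_ hp0
  rw [h x]
  exact enorm_add_le _ _

theorem NN_mono {d : ℕ} {p : ℝ} (hp : 1 ≤ p) {u v : EE d → ℂ}
    (h : ∫⁻ x, ‖u x‖ₑ ^ p ≤ ∫⁻ x, ‖v x‖ₑ ^ p) : NN p u ≤ NN p v :=
  ENNReal.rpow_le_rpow h (by positivity)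

section

variable {d m : ℕ} {P : (EE d → ℂ) → EE d → ℂ} {nr : EE d → ℝ} {ot : EE d → EE m}

theorem avp_MB (hP : avp d m P nr ot) {f : EE d → ℂ} (hf : MB f) : MB (P f) := by
  obtain ⟨hf1, B, hB⟩ := hf
  exact ⟨hP.1 f hf1, B, hP.2.1 f B hf1 hB⟩

theorem avp_sub (hP : avp d m P nr ot) {f g : EE d → ℂ} (hf : MB f) (hg : MB g) :
    P (fun x => f x - g x) = fun x => P f x - P g x :=
  funext fun x => hP.2.2.2.2.2.1 f g hf.1 hg.1 hf.2 hg.2 x

theorem avp_NN (hP : avp d m P nr ot) {p : ℝ} (hp : 1 ≤ p) {f : EE d → ℂ} (hf : Measurable f) :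
    NN p (P f) ≤ NN p f := NN_mono hp (hP.2.2.1 f p hf hp)

/-- `|f - P P f| ≤ 2 |f - P f|` -/
theorem avp_two (hP : avp d m P nr ot) {p : ℝ} (hp : 1 ≤ p) {f : EE d → ℂ} (hf : MB f) :
    NN p (fun x => f x - P (P f) x) ≤ 2 * NN p (fun x => f x - P f x) := by
  have h1 : MB (fun x => f x - P f x) := hf.sub (avp_MB hP hf)
  have h2 : P (fun x => f x - P f x) = fun x => P f x - P (P f) x := avp_sub hP hf (avp_MB hP hf)
  have h3 : NN p (fun x => f x - P (P f) x) ≤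
      NN p (fun x => f x - P f x) + NN p (P (fun x => f x - P f x)) := by
    refine NN_add hp h1.1 (avp_MB hP h1).1 fun x => ?_
    rw [h2]
    ring
  refine h3.trans ?_
  rw [two_mul]
  exact add_le_add le_rfl (avp_NN hP hp h1.1)

end

/-- distance of a function from its four averages (sum of the two integrals) -/
theorem aqp_dist (hAM1 : T_AM1) (hAM2 : T_AM2) (a b : ℕ) (L : ℝ) (ha : 1 ≤ a) (hb : 1 ≤ b)
    (hL : 1 ≤ L) (f : EE (a + b) → ℂ) (p : ℝ) (hf : Measurable f) (hfb : ∃ B : ℝ, ∀ x, ‖f x‖ ≤ B)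
    (hp : 1 ≤ p) :
    ∫⁻ x, ‖f x - AQ a b L f x‖ₑ ^ p ≤ ENNReal.ofReal ((4 : ℝ) ^ p) *
      ((∫⁻ x, ‖f x - A2 a b L f x‖ₑ ^ p) + ∫⁻ x, ‖f x - A1 a b L f x‖ₑ ^ p) := by
  have hA := hAM1 a b L ha hL
  have hB := hAM2 a b L hb hL
  have hp0 : 0 < p := by linarith
  have b0 : MB f := ⟨hf, hfb⟩
  have bB := avp_MB hB b0
  have bBB := avp_MB hB bB
  have bA := avp_MB hA b0
  have bAA := avp_MB hA bA
  have hAA : NN p (fun x => f x - A1 a b L (A1 a b L f) x) ≤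
      2 * NN p (fun x => f x - A1 a b L f x) := avp_two hA hp b0
  have hBB : NN p (fun x => f x - A2 a b L (A2 a b L f) x) ≤
      2 * NN p (fun x => f x - A2 a b L f x) := avp_two hB hp b0
  have hd : MB (fun x => f x - A2 a b L (A2 a b L f) x) := b0.sub bBB
  have e1 : A1 a b L (A1 a b L (fun x => f x - A2 a b L (A2 a b L f) x)) =
      fun x => A1 a b L (A1 a b L f) x - AQ a b L f x := by
    rw [avp_sub hA b0 bBB, avp_sub hA bA (avp_MB hA bBB)]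
    rfl
  have h1 : NN p (fun x => f x - AQ a b L f x) ≤
      NN p (fun x => f x - A1 a b L (A1 a b L f) x) +
        NN p (A1 a b L (A1 a b L (fun x => f x - A2 a b L (A2 a b L f) x))) := by
    refine NN_add hp (b0.sub bAA).1 (avp_MB hA (avp_MB hA hd)).1 fun x => ?_
    rw [e1]
    ring
  have h2 : NN p (A1 a b L (A1 a b L (fun x => f x - A2 a b L (A2 a b L f) x))) ≤
      NN p (fun x => f x - A2 a b L (A2 a b L f) x) :=
    (avp_NN hA hp (avp_MB hA hd).1).trans (avp_NN hA hp hd.1)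
  have h3 : NN p (fun x => f x - AQ a b L f x) ≤
      2 * (NN p (fun x => f x - A2 a b L f x) + NN p (fun x => f x - A1 a b L f x)) := by
    calc _ ≤ _ := h1
      _ ≤ 2 * NN p (fun x => f x - A1 a b L f x) + 2 * NN p (fun x => f x - A2 a b L f x) :=
        add_le_add hAA (h2.trans hBB)
      _ = _ := by ring
  have h4 : ∀ g : EE (a + b) → ℂ, NN p g ^ p = ∫⁻ x, ‖g x‖ₑ ^ p := by
    intro g
    unfold NN
    rw [← ENNReal.rpow_mul, one_div, inv_mul_cancel₀ hp0.ne', ENNReal.rpow_one]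
  have h5 := ENNReal.rpow_le_rpow h3 hp0.le
  rw [h4, ENNReal.mul_rpow_of_nonneg _ _ hp0.le] at h5
  refine h5.trans ?_
  have h6 := ENNReal.rpow_add_le_mul_rpow_add_rpow
    (NN p (fun x => f x - A2 a b L f x)) (NN p (fun x => f x - A1 a b L f x)) hp
  rw [h4, h4] at h6
  refine (mul_le_mul' le_rfl h6).trans ?_
  rw [← mul_assoc]
  refine mul_le_mul' ?_ le_rfl
  have e2 : (2 : ℝ≥0∞) = ENNReal.ofReal 2 := by simp
  rw [e2, ENNReal.ofReal_rpow_of_pos (by norm_num), ENNReal.ofReal_rpow_of_pos (by norm_num),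
    ← ENNReal.ofReal_mul (by positivity)]
  refine ENNReal.ofReal_le_ofReal ?_
  rw [← Real.rpow_add (by norm_num), show (4 : ℝ) = 2 ^ (2 : ℝ) by norm_num,
    ← Real.rpow_mul (by norm_num)]
  exact Real.rpow_le_rpow_of_exponent_le (by norm_num) (by linarith)


theorem pf_aqp (_hJB : T_JB) (hAM1 : T_AM1) (hAM2 : T_AM2) (hAC2 : T_AC2) : T_AQP := by
  intro a b L ha hb hL
  have hA := hAM1 a b L ha hL
  have hB := hAM2 a b L hb hL
  refine ⟨?_, ?_, ?_, ?_, ?_, ?_, ?_, ?_, ?_⟩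
  · intro f hf
    exact hA.1 _ (hA.1 _ (hB.1 _ (hB.1 _ hf)))
  · intro f B hf hfB
    have m1 := hB.1 _ hf
    have m2 := hB.1 _ m1
    have m3 := hA.1 _ m2
    exact hA.2.1 _ B m3 (hA.2.1 _ B m2 (hB.2.1 _ B m1 (hB.2.1 _ B hf hfB)))
  · intro f p hf hp
    have m1 := hB.1 _ hf
    have m2 := hB.1 _ m1
    have m3 := hA.1 _ m2
    exact (hA.2.2.1 _ p m3 hp).trans ((hA.2.2.1 _ p m2 hp).trans
      ((hB.2.2.1 _ p m1 hp).trans (hB.2.2.1 _ p hf hp)))
  · intro f hf hfi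
    have m1 := hB.1 _ hf
    have m2 := hB.1 _ m1
    have m3 := hA.1 _ m2
    exact hA.2.2.2.1 _ m3 (hA.2.2.2.1 _ m2 (hB.2.2.2.1 _ m1 (hB.2.2.2.1 _ hf hfi)))
  · intro f c _ _ x
    have e2 : ∀ g : EE (a + b) → ℂ, A2 a b L (fun x => c ‖p1 a b x‖ ‖p2 a b x‖ * g x) =
        fun x => c ‖p1 a b x‖ ‖p2 a b x‖ * A2 a b L g x := fun g => funext fun x =>
      hB.2.2.2.2.1 g (fun r y => c ‖y‖ r) x
    have e1 : ∀ g : EE (a + b) → ℂ, A1 a b L (fun x => c ‖p1 a b x‖ ‖p2 a b x‖ * g x) =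
        fun x => c ‖p1 a b x‖ ‖p2 a b x‖ * A1 a b L g x := fun g => funext fun x =>
      hA.2.2.2.2.1 g (fun r y => c r ‖y‖) x
    unfold AQ
    rw [e2, e2, e1, e1]
  · intro f g hf hg hfb hgb x
    have hf0 : MB f := ⟨hf, hfb⟩
    have hg0 : MB g := ⟨hg, hgb⟩
    unfold AQ
    rw [avp_sub hB hf0 hg0, avp_sub hB (avp_MB hB hf0) (avp_MB hB hg0),
      avp_sub hA (avp_MB hB (avp_MB hB hf0)) (avp_MB hB (avp_MB hB hg0)),
      avp_sub hA (avp_MB hA (avp_MB hB (avp_MB hB hf0)))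
        (avp_MB hA (avp_MB hB (avp_MB hB hg0)))]
  · intro f hf hfi hfb ξ
    have b0 : MB f := ⟨hf, hfb⟩
    have b1 := avp_MB hB b0
    have b2 := avp_MB hB b1
    have b3 := avp_MB hA b2
    have i1 := hB.2.2.2.1 _ hf hfi
    have i2 := hB.2.2.2.1 _ b1.1 i1
    have i3 := hA.2.2.2.1 _ b2.1 i2
    have f0 : 𝓕 (A2 a b L f) = A2 a b L (𝓕 f) := funext (hB.2.2.2.2.2.2 f hf hfi hfb)
    have f1 : 𝓕 (A2 a b L (A2 a b L f)) = A2 a b L (𝓕 (A2 a b L f)) :=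
      funext (hB.2.2.2.2.2.2 _ b1.1 i1 b1.2)
    have f2 : 𝓕 (A1 a b L (A2 a b L (A2 a b L f))) = A1 a b L (𝓕 (A2 a b L (A2 a b L f))) :=
      funext (hA.2.2.2.2.2.2 _ b2.1 i2 b2.2)
    have f3 : 𝓕 (A1 a b L (A1 a b L (A2 a b L (A2 a b L f)))) =
        A1 a b L (𝓕 (A1 a b L (A2 a b L (A2 a b L f)))) :=
      funext (hA.2.2.2.2.2.2 _ b3.1 i3 b3.2)
    unfold AQ
    rw [f3, f2, f1, f0]
  · intro f L' hL' hf hfb x
    have hA' := hAM1 a b L' ha hL'
    have hB' := hAM2 a b L' hb hL'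
    have cAA : ∀ g, MB g → A1 a b L (A1 a b L' g) = A1 a b L' (A1 a b L g) := fun g hg =>
      funext fun x => (hAC2 a b L L' g ha hb hL hL' hg.1 hg.2 x).2.1
    have cBB : ∀ g, MB g → A2 a b L (A2 a b L' g) = A2 a b L' (A2 a b L g) := fun g hg =>
      funext fun x => (hAC2 a b L L' g ha hb hL hL' hg.1 hg.2 x).1
    have cAB : ∀ g, MB g → A1 a b L (A2 a b L' g) = A2 a b L' (A1 a b L g) := fun g hg =>
      funext fun x => (hAC2 a b L L' g ha hb hL hL' hg.1 hg.2 x).2.2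
    have cBA : ∀ g, MB g → A2 a b L (A1 a b L' g) = A1 a b L' (A2 a b L g) := fun g hg =>
      funext fun x => ((hAC2 a b L' L g ha hb hL' hL hg.1 hg.2 x).2.2).symm
    have mQ : ∀ g, MB g → MB (AQ a b L' g) := fun g hg =>
      avp_MB hA' (avp_MB hA' (avp_MB hB' (avp_MB hB' hg)))
    have kA : ∀ g, MB g → A1 a b L (AQ a b L' g) = AQ a b L' (A1 a b L g) := by
      intro g hg
      have b1 := avp_MB hB' hg
      have b2 := avp_MB hB' b1
      have b3 := avp_MB hA' b2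
      unfold AQ
      rw [cAA _ b3, cAA _ b2, cAB _ b1, cAB _ hg]
    have kB : ∀ g, MB g → A2 a b L (AQ a b L' g) = AQ a b L' (A2 a b L g) := by
      intro g hg
      have b1 := avp_MB hB' hg
      have b2 := avp_MB hB' b1
      have b3 := avp_MB hA' b2
      unfold AQ
      rw [cBA _ b3, cBA _ b2, cBB _ b1, cBB _ hg]
    have b0 : MB f := ⟨hf, hfb⟩
    have b1 := avp_MB hB b0
    have b2 := avp_MB hB b1
    have b3 := avp_MB hA b2
    have hfin : AQ a b L (AQ a b L' f) = AQ a b L' (AQ a b L f) := by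
      show A1 a b L (A1 a b L (A2 a b L (A2 a b L (AQ a b L' f)))) =
        AQ a b L' (A1 a b L (A1 a b L (A2 a b L (A2 a b L f))))
      rw [kB _ b0, kB _ b1, kA _ b2, kA _ b3]
    rw [hfin]
  · intro f p hf hfb hp
    refine (aqp_dist hAM1 hAM2 a b L ha hb hL f p hf hfb hp).trans (mul_le_mul' le_rfl ?_)
    rw [lintegral_add_right _ measurable_const, lintegral_const]
    refine add_le_add le_rfl ?_
    have hnt : Nontrivial (EE (a + b)) := by
      have hne : Nonempty (Fin (a + b)) := ⟨⟨0, by omega⟩⟩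
      infer_instance
    rw [measure_univ_of_isAddLeftInvariant]
    exact le_mul_of_one_le_right' le_top

end Pool.Agent.H48.BR
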