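import Pool.Agent.H48.BR.GG5

/-!
# BR board, module GG
-/

set_option autoImplicit false

namespace Pool.Agent.H48.BR

open MeasureTheory Set FourierTransform Filter
open Pool.Agent.H83.AR Pool.Agent.H93.AR Pool.Agent.H83.LS Pool.Agent.H54.LS Pool.Agent.H14.LS
open scoped ENNReal NNReal Topology

theorem fatou2 {d : ℕ} {S : Set (EE d)} {p : ℝ} {G : ℕ → ℝ → EE d → ℂ} {H : ℝ → EE d → ℂ}
    (hm : ∀ k, Measurable fun q : ℝ × EE d => ‖G k q.1 q.2‖ₑ ^ p)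
    (hlim : ∀ t x, Tendsto (fun k => G k t x) atTop (𝓝 (H t x))) {B : ℝ≥0∞}
    (hB : ∀ k, ∫⁻ t in Icc (1 : ℝ) 2, ∫⁻ x in S, ‖G k t x‖ₑ ^ p ≤ B) :
    ∫⁻ t in Icc (1 : ℝ) 2, ∫⁻ x in S, ‖H t x‖ₑ ^ p ≤ B := by
  have h1 : ∀ t x, ‖H t x‖ₑ ^ p = liminf (fun k => ‖G k t x‖ₑ ^ p) atTop := by
    intro t x
    have h2 : Tendsto (fun k => ‖G k t x‖ₑ ^ p) atTop (𝓝 (‖H t x‖ₑ ^ p)) :=
      (ENNReal.continuous_rpow_const.tendsto _).comp (hlim t x).enorm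
    exact h2.liminf_eq.symm
  have hm1 : ∀ k t, Measurable fun x => ‖G k t x‖ₑ ^ p := fun k t =>
    (hm k).comp (measurable_prodMk_left (x := t))
  calc ∫⁻ t in Icc (1 : ℝ) 2, ∫⁻ x in S, ‖H t x‖ₑ ^ p
      = ∫⁻ t in Icc (1 : ℝ) 2, ∫⁻ x in S, liminf (fun k => ‖G k t x‖ₑ ^ p) atTop := by
        simp only [h1]
    _ ≤ ∫⁻ t in Icc (1 : ℝ) 2, liminf (fun k => ∫⁻ x in S, ‖G k t x‖ₑ ^ p) atTop :=
        lintegral_mono fun t => lintegral_liminf_le fun k => hm1 k t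
    _ ≤ liminf (fun k => ∫⁻ t in Icc (1 : ℝ) 2, ∫⁻ x in S, ‖G k t x‖ₑ ^ p) atTop :=
        lintegral_liminf_le fun k => (hm k).lintegral_prod_right' (ν := volume.restrict S)
    _ ≤ liminf (fun _ : ℕ => B) atTop := liminf_le_liminf (Eventually.of_forall hB)
    _ = B := liminf_const _

/-- truncation to a ball -/
noncomputable def tru {d : ℕ} (f : EE d → ℂ) (k : ℕ) : EE d → ℂ :=
  (Metric.closedBall (0 : EE d) (k : ℝ)).indicator f

theorem tru_bcd {d : ℕ} {A : ℝ} {f : EE d → ℂ} (hf : BI A f) (k : ℕ) : BCd A (tru f k) := by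
  obtain ⟨h1, -, h2⟩ := hf
  have hA : 0 ≤ A := (norm_nonneg _).trans (h2 0)
  refine ⟨h1.indicator Metric.isClosed_closedBall.measurableSet, fun x => ?_, k, fun x hx => ?_⟩
  · unfold tru
    by_cases h : x ∈ Metric.closedBall (0 : EE d) (k : ℝ)
    · rw [indicator_of_mem h]
      exact h2 x
    · rw [indicator_of_notMem h, norm_zero]
      exact hA
  · unfold tru
    rw [indicator_of_notMem]
    intro h
    rw [mem_closedBall_zero_iff] at h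
    linarith

theorem tru_supp {d : ℕ} {f : EE d → ℂ} {k : ℕ} {x : EE d} (h : tru f k x ≠ 0) : f x ≠ 0 := by
  unfold tru at h
  by_cases hx : x ∈ Metric.closedBall (0 : EE d) (k : ℝ)
  · rwa [indicator_of_mem hx] at h
  · rw [indicator_of_notMem hx] at h
    exact absurd rfl h

theorem tru_sq {d : ℕ} (f : EE d → ℂ) (k : ℕ) :
    ∫⁻ x, ‖tru f k x‖ₑ ^ 2 ≤ ∫⁻ x, ‖f x‖ₑ ^ 2 := by
  apply lintegral_mono
  intro x
  simp only
  unfold tru
  by_cases h : x ∈ Metric.closedBall (0 : EE d) (k : ℝ)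
  · rw [indicator_of_mem h]
  · rw [indicator_of_notMem h]
    simp

attribute [local irreducible] MM m2 mS GM AQ A1 A2 AL MK

theorem ext (hLI : T_LI2) (hAM : T_AM2) (hJM : T_JM) {a b : ℕ} (ha : 1 ≤ a) (hb : 1 ≤ b)
    {lam Lam L A p : ℝ} (hlam : 0 < lam) (hL : 1 ≤ L) {f : EE (a + b) → ℂ} (hf : BI A f)
    {S : Set (EE (a + b))} {B : ℝ≥0∞}
    (hB : ∀ k, ∫⁻ t in Icc (1 : ℝ) 2, ∫⁻ x in S,
      ‖MM (m2 a b lam Lam t) (AQ a b L (tru f k)) x‖ₑ ^ p ≤ B * ∫⁻ x, ‖tru f k x‖ₑ ^ 2) :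
    ∫⁻ t in Icc (1 : ℝ) 2, ∫⁻ x in S, ‖MM (m2 a b lam Lam t) (AQ a b L f) x‖ₑ ^ p ≤
      B * ∫⁻ x, ‖f x‖ₑ ^ 2 := by
  refine fatou2 (G := fun k t x => MM (m2 a b lam Lam t) (AQ a b L (tru f k)) x)
    (H := fun t x => MM (m2 a b lam Lam t) (AQ a b L f) x) ?_ ?_ ?_
  · intro k
    exact (MM_meas (m := fun t => m2 a b lam Lam t) (m2_meas hJM lam Lam)
      (fourier_meas' (bcd_int (AQ_bcd hJM hAM ha hb hL (tru_bcd hf k))))).enorm.pow_const _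
  · intro t x
    exact hLI a b L A (m2 a b lam Lam t) f ha hb hL hf (m2_meas' hJM lam Lam t)
      (m2_int hJM hlam Lam t) x
  · intro k
    exact (hB k).trans (mul_le_mul_right (tru_sq f k) _)

/-- GG -/
theorem pf_gg (hPA : T_PAm) (hWP : T_WPm) (hS1 : T_S1) (hKF : T_KF) (hGMB : T_GMB)
    (hGC : T_GC) (hLI : T_LI2) (hAM : T_AM2) (hAC : T_AC2) (hPLE : T_PLE) (_hYG : T_YG)
    (hJM : T_JM) : T_GG := by
  intro a b p η ha hb hp hab hη
  obtain ⟨Ca, hCa⟩ := near hPA hWP hS1 hKF hGMB hGC hAM hAC hPLE hJM a b p η ha hb hp hab hη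
  obtain ⟨Cb, hCb⟩ := far hPA hS1 hGMB hGC hAM hAC hJM a b p η ha hb hp hab hη
  refine ⟨Ca + Cb, ?_⟩
  intro lam Lam L A f hlam hlL hLam hLL hL hL8 hA
  have hlam0 : 0 < lam := by linarith
  have ha1 : 1 ≤ a := by omega
  have hb1 : 1 ≤ b := by omega
  constructor
  · intro hsupp
    refine (ext (B := Ca * ENNReal.ofReal (L ^ 2 * lam ^ η * A ^ (p - 2))) hLI hAM hJM ha1 hb1
      hlam0 hL hA fun k => ?_).trans ?_
    · exact hCa lam Lam L A (tru f k) hlam hlL hLam hLL hL hL8 (tru_bcd hA k)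
        fun x hx => hsupp x (tru_supp hx)
    · push_cast
      gcongr
      exact le_self_add
  · intro i hi hsupp
    refine (ext (B := Cb * ENNReal.ofReal (L ^ 2 * lam ^ η * A ^ (p - 2))) hLI hAM hJM ha1 hb1
      hlam0 hL hA fun k => ?_).trans ?_
    · exact hCb lam Lam L A (tru f k) hlam hLam hLL hL hL8 (tru_bcd hA k) i hi
        fun x hx => hsupp x (tru_supp hx)
    · push_cast
      gcongr
      exact le_add_self

end Pool.Agent.H48.BR
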