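import Pool.Agent.H83.AR.Targets3
import Pool.Agent.H14.LS.Main3
import Pool.Agent.H83.LS.WA

/-!
# BR board, module GG, part 1: cutoffs, averages, measurability
-/

set_option autoImplicit false

namespace Pool.Agent.H48.BR

open MeasureTheory Set FourierTransform Filter
open Pool.Agent.H83.AR Pool.Agent.H93.AR Pool.Agent.H83.LS Pool.Agent.H54.LS Pool.Agent.H14.LS
open scoped ENNReal NNReal Topology

variable {a b : ℕ}

/-! ### measurability -/

theorem ft_meas_abs {S E : Type*} [MeasurableSpace S] [MeasurableSpace E] {μ : Measure E}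
    [SFinite μ] {k : E × E → ℂ} (hk : Measurable k) {G : S × E → ℂ} (hG : Measurable G) :
    Measurable fun q : S × E => ∫ y, k (y, q.2) * G (q.1, y) ∂μ := by
  apply StronglyMeasurable.measurable
  apply StronglyMeasurable.integral_prod_right
    (f := fun (q : S × E) (y : E) => k (y, q.2) * G (q.1, y))
  apply Measurable.stronglyMeasurable
  have h1 : Measurable fun w : (S × E) × E => k (w.2, w.1.2) :=
    hk.comp (measurable_snd.prodMk (measurable_snd.comp measurable_fst))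
  have h2 : Measurable fun w : (S × E) × E => G (w.1.1, w.2) :=
    hG.comp ((measurable_fst.comp measurable_fst).prodMk measurable_snd)
  exact h1.mul h2

theorem mm_meas_abs {T S E : Type*} [MeasurableSpace T] [MeasurableSpace S] [MeasurableSpace E]
    {μ : Measure E} [SFinite μ] {k : E × E → ℂ} (hk : Measurable k) {m : T × E → ℂ}
    (hm : Measurable m) {F : S × E → ℂ} (hF : Measurable F) :
    Measurable fun q : (T × S) × E => ∫ y, k (q.2, y) * (m (q.1.1, y) * F (q.1.2, y)) ∂μ := by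
  apply StronglyMeasurable.measurable
  apply StronglyMeasurable.integral_prod_right
    (f := fun (q : (T × S) × E) (y : E) => k (q.2, y) * (m (q.1.1, y) * F (q.1.2, y)))
  apply Measurable.stronglyMeasurable
  have h1 : Measurable fun w : ((T × S) × E) × E => k (w.1.2, w.2) :=
    hk.comp ((measurable_snd.comp measurable_fst).prodMk measurable_snd)
  have h2 : Measurable fun w : ((T × S) × E) × E => m (w.1.1.1, w.2) :=
    hm.comp ((measurable_fst.comp (measurable_fst.comp measurable_fst)).prodMk measurable_snd)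
  have h3 : Measurable fun w : ((T × S) × E) × E => F (w.1.1.2, w.2) :=
    hF.comp ((measurable_snd.comp (measurable_fst.comp measurable_fst)).prodMk measurable_snd)
  exact h1.mul (h2.mul h3)

theorem MMp_meas {S : Type*} [MeasurableSpace S] {d : ℕ} {m : ℝ → EE d → ℂ} {G : S → EE d → ℂ}
    (hm : Measurable fun q : ℝ × EE d => m q.1 q.2)
    (hG : Measurable fun q : S × EE d => G q.1 q.2) :
    Measurable fun q : (ℝ × S) × EE d => MM (m q.1.1) (G q.1.2) q.2 := by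
  have k1 : Measurable fun w : EE d × EE d => e (-(inner ℝ w.1 w.2)) := by
    apply measurable_e.comp
    exact (measurable_fst.inner measurable_snd).neg
  have k2 : Measurable fun w : EE d × EE d => e (inner ℝ w.1 w.2) := by
    apply measurable_e.comp
    exact measurable_fst.inner measurable_snd
  have hF0 := ft_meas_abs (μ := (volume : Measure (EE d))) k1 hG
  have hF : Measurable fun q : S × EE d => 𝓕 (G q.1) q.2 := by
    have h0 : (fun q : S × EE d => 𝓕 (G q.1) q.2) =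
        fun q : S × EE d => ∫ y : EE d, e (-(inner ℝ y q.2)) * G q.1 y :=
      funext fun q => ff_eq _ _
    rw [h0]
    exact hF0
  have h1 := mm_meas_abs (μ := (volume : Measure (EE d))) k2 hm hF
  unfold MM
  exact h1

theorem swap_abs {α β γ : Type*} [MeasurableSpace α] [MeasurableSpace β] [MeasurableSpace γ]
    {μ : Measure α} {ν : Measure β} {κ : Measure γ} [SFinite μ] [SFinite ν] [SFinite κ]
    {F : α → β → γ → ℝ≥0∞} (hF : Measurable fun q : (α × β) × γ => F q.1.1 q.1.2 q.2) :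
    ∫⁻ t, ∫⁻ v, ∫⁻ x, F t v x ∂κ ∂ν ∂μ = ∫⁻ v, ∫⁻ t, ∫⁻ x, F t v x ∂κ ∂μ ∂ν := by
  apply lintegral_lintegral_swap
  exact (Measurable.lintegral_prod_right' (ν := κ) hF).aemeasurable

theorem swap_int {d : ℕ} {p : ℝ} {m : ℝ → EE d → ℂ} {G : Sp b → EE d → ℂ}
    (hm : Measurable fun q : ℝ × EE d => m q.1 q.2)
    (hG : Measurable fun q : Sp b × EE d => G q.1 q.2) {W : EE d → ℝ≥0∞} (hW : Measurable W) :
    ∫⁻ t in Icc (1 : ℝ) 2, ∫⁻ v : Sp b, ∫⁻ x : EE d, ‖MM (m t) (G v) x‖ₑ ^ p * W x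
        ∂volume ∂(sg b) =
      ∫⁻ v : Sp b, ∫⁻ t in Icc (1 : ℝ) 2, ∫⁻ x : EE d, ‖MM (m t) (G v) x‖ₑ ^ p * W x
        ∂volume ∂volume ∂(sg b) := by
  have h0 := MMp_meas (m := m) (G := G) hm hG
  have h1 : Measurable fun q : (ℝ × Sp b) × EE d => ‖MM (m q.1.1) (G q.1.2) q.2‖ₑ ^ p :=
    h0.enorm.pow_const p
  have h2 : Measurable fun q : (ℝ × Sp b) × EE d => W q.2 := hW.comp measurable_snd
  exact swap_abs (μ := volume.restrict (Icc (1 : ℝ) 2)) (ν := sg b) (κ := volume)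
    (F := fun t v x => ‖MM (m t) (G v) x‖ₑ ^ p * W x) (h1.mul h2)

theorem eta0_meas : Measurable eta0 := eta0_smooth.continuous.measurable

theorem chis_meas : Measurable chis := by
  unfold chis
  exact (eta0_meas.comp (by fun_prop)).sub (eta0_meas.comp (by fun_prop))

theorem mS_meas (n : ℕ) (lam M : ℝ) :
    Measurable fun q : ℝ × EE (n + 1) => mS n lam M q.1 q.2 := by
  unfold mS
  apply (mT_meas lam).mul
  apply Complex.measurable_ofReal.comp
  apply chis_meas.comp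
  have h1 : Continuous fun x : EE (n + 1) => x (Fin.last n) := by fun_prop
  exact (h1.measurable.comp measurable_snd).div_const _

theorem chi_meas_abs {E F : Type*} [MeasurableSpace E] [MeasurableSpace F] {c : ℝ → ℝ}
    (hc : Measurable c) {g : E → ℝ} (hg : Measurable g) (Lam : ℝ) {u : F × E → ℂ}
    (hu : Measurable u) :
    Measurable fun q : F × E => u q * ((c (g q.2 / Lam) : ℝ) : ℂ) := by
  apply hu.mul
  apply Complex.measurable_ofReal.comp
  apply hc.comp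
  exact (hg.comp measurable_snd).div_const _

theorem p2_norm_meas (hJM : T_JM) : Measurable fun x : EE (a + b) => ‖p2 a b x‖ := by
  obtain ⟨-, -, -, -, -, -, h, -⟩ := hJM a b
  exact h.norm.measurable

theorem m2_meas (hJM : T_JM) (lam Lam : ℝ) :
    Measurable fun q : ℝ × EE (a + b) => m2 a b lam Lam q.1 q.2 := by
  have h1 := chi_meas_abs chi_smooth.continuous.measurable (p2_norm_meas (a := a) (b := b) hJM)
    Lam (mT_meas (d := a + b) lam)
  unfold m2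
  exact h1

theorem sec_meas {E F G : Type*} [MeasurableSpace E] [MeasurableSpace F] [MeasurableSpace G]
    {u : F → E → G} (hu : Measurable fun q : F × E => u q.1 q.2) (t : F) : Measurable (u t) :=
  hu.comp (measurable_prodMk_left (x := t))

theorem m2_meas' (hJM : T_JM) (lam Lam t : ℝ) : Measurable (m2 a b lam Lam t) := by
  have h := m2_meas (a := a) (b := b) hJM lam Lam
  exact sec_meas (u := fun t => m2 a b lam Lam t) h t

theorem m2_le (lam Lam t : ℝ) (ξ : EE (a + b)) : ‖m2 a b lam Lam t ξ‖ ≤ ‖mT lam t ξ‖ := by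
  unfold m2
  rw [norm_mul, Complex.norm_real, Real.norm_eq_abs]
  exact mul_le_of_le_one_right (norm_nonneg _) (chi_abs_le _)

theorem mT_le_one {d : ℕ} (lam t : ℝ) (ξ : EE d) : ‖mT lam t ξ‖ ≤ 1 := by
  unfold mT
  rw [norm_mul, norm_e, one_mul, Complex.norm_real, Real.norm_eq_abs]
  exact chi_abs_le _

theorem m2_int (hJM : T_JM) {lam : ℝ} (hl : 0 < lam) (Lam t : ℝ) :
    Integrable (m2 a b lam Lam t) :=
  (mT_int hl t).norm.mono' (m2_meas' hJM lam Lam t).aestronglyMeasurable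
    (Eventually.of_forall fun ξ => m2_le lam Lam t ξ)

/-! ### cutoffs in the second block -/

/-- restriction to a set of norms of the second block -/
noncomputable def cut2 (R : Set ℝ) (f : EE (a + b) → ℂ) : EE (a + b) → ℂ :=
  {x | ‖p2 a b x‖ ∈ R}.indicator f

theorem set2_meas (hJM : T_JM) {R : Set ℝ} (hR : MeasurableSet R) :
    MeasurableSet {x : EE (a + b) | ‖p2 a b x‖ ∈ R} :=
  (p2_norm_meas hJM) hR

theorem cut2_bcd (hJM : T_JM) {R : Set ℝ} (hR : MeasurableSet R) {A : ℝ} {f : EE (a + b) → ℂ}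
    (hf : BCd A f) : BCd A (cut2 R f) := bcd_ind hf (set2_meas hJM hR)

theorem cut2_supp {R : Set ℝ} {f : EE (a + b) → ℂ} {x : EE (a + b)} (hx : cut2 R f x ≠ 0) :
    ‖p2 a b x‖ ∈ R ∧ f x ≠ 0 := by
  unfold cut2 at hx
  by_cases h : x ∈ {x | ‖p2 a b x‖ ∈ R}
  · rw [indicator_of_mem h] at hx
    exact ⟨h, hx⟩
  · rw [indicator_of_notMem h] at hx
    exact absurd rfl hx

theorem cut2_sq_le {R : Set ℝ} (f : EE (a + b) → ℂ) :
    ∫⁻ x, ‖cut2 R f x‖ₑ ^ 2 ≤ ∫⁻ x, ‖f x‖ₑ ^ 2 := by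
  apply lintegral_mono
  intro x
  simp only
  unfold cut2
  by_cases h : x ∈ {x | ‖p2 a b x‖ ∈ R}
  · rw [indicator_of_mem h]
  · rw [indicator_of_notMem h]
    simp

/-- dyadic shells starting at `r` -/
def shl (r : ℝ) (j : ℕ) : Set ℝ := Ico (2 ^ j * r) (2 ^ (j + 1) * r)

theorem shl_meas (r : ℝ) (j : ℕ) : MeasurableSet (shl r j) := measurableSet_Ico

theorem shl_sum {r : ℝ} (hr : 0 < r) (f : EE (a + b) → ℂ) (J : ℕ) (x : EE (a + b)) :
    ∑ j ∈ Finset.range J, cut2 (shl r j) f x = cut2 (Ico r (2 ^ J * r)) f x := by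
  induction J with
  | zero =>
    simp [cut2]
  | succ J ih =>
    rw [Finset.sum_range_succ, ih]
    have h0 : (1 : ℝ) ≤ 2 ^ J := one_le_pow₀ (by norm_num)
    have h1 : (2 : ℝ) ^ J * r ≤ 2 ^ (J + 1) * r := by
      apply mul_le_mul_of_nonneg_right _ hr.le
      exact pow_le_pow_right₀ (by norm_num) (by omega)
    have h1' : r ≤ 2 ^ J * r := by nlinarith
    unfold cut2 shl
    by_cases ha : ‖p2 a b x‖ < r
    · rw [indicator_of_notMem, indicator_of_notMem, indicator_of_notMem, add_zero]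
      · intro h; exact absurd h.1 (not_le.2 ha)
      · intro h; exact absurd (h1'.trans h.1) (not_le.2 ha)
      · intro h; exact absurd h.1 (not_le.2 ha)
    · push Not at ha
      by_cases h2 : ‖p2 a b x‖ < 2 ^ J * r
      · rw [indicator_of_mem, indicator_of_notMem, indicator_of_mem, add_zero]
        · exact ⟨ha, lt_of_lt_of_le h2 h1⟩
        · intro h; exact absurd h.1 (not_le.2 h2)
        · exact ⟨ha, h2⟩
      · push Not at h2
        rw [indicator_of_notMem, zero_add]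
        · by_cases h3 : ‖p2 a b x‖ < 2 ^ (J + 1) * r
          · rw [indicator_of_mem, indicator_of_mem]
            · exact ⟨ha, h3⟩
            · exact ⟨h2, h3⟩
          · rw [indicator_of_notMem, indicator_of_notMem]
            · intro h; exact h3 h.2
            · intro h; exact h3 h.2
        · intro h; exact absurd h.2 (not_lt.2 h2)

/-! ### averages -/

section avg

variable {L : ℝ} {P : (EE (a + b) → ℂ) → EE (a + b) → ℂ}

theorem P_cut (hAM : T_AM2) (ha : 1 ≤ a) (hb : 1 ≤ b) (hL : 1 ≤ L)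
    (hP : P = A1 a b L ∨ P = A2 a b L) (R : Set ℝ) (f : EE (a + b) → ℂ) :
    P (cut2 R f) = cut2 R (P f) := by
  funext x
  have h1 := (hAM a b L P ha hb hL hP).2.2.2.2.1 f (fun _ s => R.indicator (fun _ => (1 : ℂ)) s) x
  have h2 : ∀ g : EE (a + b) → ℂ,
      (fun x => R.indicator (fun _ => (1 : ℂ)) ‖p2 a b x‖ * g x) = cut2 R g := by
    intro g
    funext y
    unfold cut2
    by_cases hy : ‖p2 a b y‖ ∈ R
    · rw [indicator_of_mem hy, indicator_of_mem (show y ∈ {x | ‖p2 a b x‖ ∈ R} from hy), one_mul]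
    · rw [indicator_of_notMem hy, indicator_of_notMem (show y ∉ {x | ‖p2 a b x‖ ∈ R} from hy),
        zero_mul]
  rw [h2 f] at h1
  rw [h1, ← h2 (P f)]

theorem P_supp (hAM : T_AM2) (ha : 1 ≤ a) (hb : 1 ≤ b) (hL : 1 ≤ L)
    (hP : P = A1 a b L ∨ P = A2 a b L) {R : Set ℝ} {f : EE (a + b) → ℂ}
    (hf : ∀ x, f x ≠ 0 → ‖p2 a b x‖ ∈ R) : ∀ x, P f x ≠ 0 → ‖p2 a b x‖ ∈ R := by
  intro x hx
  have h1 : cut2 R f = f := by
    funext y
    unfold cut2
    by_cases hy : y ∈ {x | ‖p2 a b x‖ ∈ R}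
    · rw [indicator_of_mem hy]
    · rw [indicator_of_notMem hy]
      by_contra h
      exact hy (hf y fun h' => h h'.symm)
  rw [← h1, P_cut hAM ha hb hL hP] at hx
  exact (cut2_supp hx).1

theorem P_bcd (hJM : T_JM) (hAM : T_AM2) (ha : 1 ≤ a) (hb : 1 ≤ b) (hL : 1 ≤ L)
    (hP : P = A1 a b L ∨ P = A2 a b L) {A : ℝ} {f : EE (a + b) → ℂ} (hf : BCd A f) :
    BCd A (P f) := by
  obtain ⟨h1, h2, R, h3⟩ := hf
  obtain ⟨a1, a2, -, -, a5, -⟩ := hAM a b L P ha hb hL hP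
  refine ⟨a1 f h1, a2 f A h1 h2, max R 0, fun x hx => ?_⟩
  set c : ℝ → ℝ → ℂ := fun r s => if r ^ 2 + s ^ 2 ≤ (max R 0) ^ 2 then 1 else 0 with hc
  have hns := (hJM a b).2.2.2.1
  have h4 : (fun x => c ‖p1 a b x‖ ‖p2 a b x‖ * f x) = f := by
    funext y
    rw [hc]
    simp only
    split_ifs with h
    · rw [one_mul]
    · rw [zero_mul]
      refine (h3 y ?_).symm
      push Not at h
      rw [← hns y] at h
      have h5 := (sq_lt_sq₀ (le_max_right R 0) (norm_nonneg y)).1 h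
      exact lt_of_le_of_lt (le_max_left _ _) h5
  have h5 := a5 f c x
  rw [h4] at h5
  rw [h5, hc]
  simp only
  rw [if_neg, zero_mul]
  rw [← hns x]
  push Not
  exact (sq_lt_sq₀ (le_max_right R 0) (norm_nonneg x)).2 hx

theorem P_sq (hAM : T_AM2) (ha : 1 ≤ a) (hb : 1 ≤ b) (hL : 1 ≤ L)
    (hP : P = A1 a b L ∨ P = A2 a b L) {f : EE (a + b) → ℂ} (hf : Measurable f) :
    ∫⁻ x, ‖P f x‖ₑ ^ 2 ≤ ∫⁻ x, ‖f x‖ₑ ^ 2 := by
  have h := (hAM a b L P ha hb hL hP).2.2.1 f 2 hf (by norm_num)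
  simpa only [ENNReal.rpow_two] using h

end avg

variable {L : ℝ}

/-- the order of the averages -/
theorem AQ_eq (hJM : T_JM) (hAM : T_AM2) (hAC : T_AC2) (ha : 1 ≤ a) (hb : 1 ≤ b) (hL : 1 ≤ L)
    {A : ℝ} {f : EE (a + b) → ℂ} (hf : BCd A f) :
    AQ a b L f = A2 a b L (A2 a b L (A1 a b L (A1 a b L f))) := by
  have c : ∀ g : EE (a + b) → ℂ, BCd A g → A1 a b L (A2 a b L g) = A2 a b L (A1 a b L g) := by
    intro g hg
    funext x
    exact (hAC a b L L g ha hb hL hL hg.1 ⟨A, hg.2.1⟩ x).2.2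
  have b1 := P_bcd hJM hAM ha hb hL (Or.inl rfl) hf
  have b2 := P_bcd hJM hAM ha hb hL (Or.inr rfl) hf
  have b3 := P_bcd hJM hAM ha hb hL (Or.inr rfl) b1
  unfold AQ
  rw [c _ b2, c _ hf, c _ b3, c _ b1]

theorem AQ_bcd (hJM : T_JM) (hAM : T_AM2) (ha : 1 ≤ a) (hb : 1 ≤ b) (hL : 1 ≤ L)
    {A : ℝ} {f : EE (a + b) → ℂ} (hf : BCd A f) : BCd A (AQ a b L f) :=
  P_bcd hJM hAM ha hb hL (Or.inl rfl) (P_bcd hJM hAM ha hb hL (Or.inl rfl)
    (P_bcd hJM hAM ha hb hL (Or.inr rfl) (P_bcd hJM hAM ha hb hL (Or.inr rfl) hf)))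

theorem AQ_cut (hAM : T_AM2) (ha : 1 ≤ a) (hb : 1 ≤ b) (hL : 1 ≤ L) (R : Set ℝ)
    (f : EE (a + b) → ℂ) : AQ a b L (cut2 R f) = cut2 R (AQ a b L f) := by
  unfold AQ
  rw [P_cut hAM ha hb hL (Or.inr rfl), P_cut hAM ha hb hL (Or.inr rfl),
    P_cut hAM ha hb hL (Or.inl rfl), P_cut hAM ha hb hL (Or.inl rfl)]

theorem AQ_supp (hAM : T_AM2) (ha : 1 ≤ a) (hb : 1 ≤ b) (hL : 1 ≤ L) {R : Set ℝ}
    {f : EE (a + b) → ℂ} (hf : ∀ x, f x ≠ 0 → ‖p2 a b x‖ ∈ R) :
    ∀ x, AQ a b L f x ≠ 0 → ‖p2 a b x‖ ∈ R :=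
  P_supp hAM ha hb hL (Or.inl rfl) (P_supp hAM ha hb hL (Or.inl rfl)
    (P_supp hAM ha hb hL (Or.inr rfl) (P_supp hAM ha hb hL (Or.inr rfl) hf)))

theorem AQ_pow (hAM : T_AM2) (ha : 1 ≤ a) (hb : 1 ≤ b) (hL : 1 ≤ L) {p : ℝ} (hp : 1 ≤ p)
    {f : EE (a + b) → ℂ} (hf : Measurable f) :
    ∫⁻ x, ‖AQ a b L f x‖ₑ ^ p ≤ ∫⁻ x, ‖f x‖ₑ ^ p := by
  have hA := hAM a b L (A1 a b L) ha hb hL (Or.inl rfl)
  have hB := hAM a b L (A2 a b L) ha hb hL (Or.inr rfl)
  have m1 := hB.1 _ hf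
  have m2 := hB.1 _ m1
  have m3 := hA.1 _ m2
  exact (hA.2.2.1 _ p m3 hp).trans ((hA.2.2.1 _ p m2 hp).trans
    ((hB.2.2.1 _ p m1 hp).trans (hB.2.2.1 _ p hf hp)))

/-- `GM` of the averages in the inert block -/
theorem GM_avg (hJM : T_JM) (hAM : T_AM2) (hGC : T_GC) (ha : 1 ≤ a) (hb : 2 ≤ b) (hL : 1 ≤ L)
    {Lam A : ℝ} (hLam : 0 < Lam) {f : EE (a + b) → ℂ} (hf : BCd A f)
    (hs : ∀ x, f x ≠ 0 → L ^ 2 ≤ Lam * ‖p2 a b x‖) (v : Sp b) :
    GM a b L Lam (A1 a b L (A1 a b L f)) v = AL L (AL L (GM a b L Lam f v)) := by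
  have b1 := P_bcd hJM hAM ha (by omega) hL (Or.inl rfl) hf
  have s1 : ∀ x, A1 a b L f x ≠ 0 → L ^ 2 ≤ Lam * ‖p2 a b x‖ :=
    P_supp hAM ha (by omega) hL (Or.inl rfl) (R := {r | L ^ 2 ≤ Lam * r}) hs
  have e1 : GM a b L Lam (A1 a b L (A1 a b L f)) v = AL L (GM a b L Lam (A1 a b L f) v) :=
    funext fun X => hGC a b L Lam L A _ v X ha hb hL hL hLam b1 s1
  have e2 : GM a b L Lam (A1 a b L f) v = AL L (GM a b L Lam f v) :=
    funext fun X => hGC a b L Lam L A _ v X ha hb hL hL hLam hf hs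
  rw [e1, e2]

/-! ### arithmetic -/

theorem arithw {D D' s β A C2 w p κ : ℝ} (hD : 0 < D) (hD' : 0 < D') (hκ : 0 < κ)
    (h : D' ≤ κ * D) (hA : 0 ≤ A) (hC2 : 0 ≤ C2) (hw : 0 ≤ w) (hβ0 : 0 ≤ β)
    (hs : s * (p - 2) = β) :
    ENNReal.ofReal (D ^ (-β)) * ENNReal.ofReal (w * (C2 * (D' ^ s * A)) ^ (p - 2)) ≤
      (Real.toNNReal (κ ^ β * C2 ^ (p - 2)) : ℝ≥0∞) * ENNReal.ofReal (w * A ^ (p - 2)) := by
  have e1 : (Real.toNNReal (κ ^ β * C2 ^ (p - 2)) : ℝ≥0∞) =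
      ENNReal.ofReal (κ ^ β * C2 ^ (p - 2)) := rfl
  rw [e1, ← ENNReal.ofReal_mul (by positivity), ← ENNReal.ofReal_mul (by positivity)]
  refine ENNReal.ofReal_le_ofReal ?_
  rw [Real.mul_rpow hC2 (by positivity), Real.mul_rpow (by positivity) hA,
    ← Real.rpow_mul hD'.le, hs, Real.rpow_neg hD.le]
  have h6 : D' ^ β ≤ κ ^ β * D ^ β := by
    rw [← Real.mul_rpow hκ.le hD.le]
    exact Real.rpow_le_rpow hD'.le h hβ0
  have h7 : (D ^ β)⁻¹ * D' ^ β ≤ κ ^ β := by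
    rw [inv_mul_eq_div, div_le_iff₀ (by positivity)]
    exact h6
  calc (D ^ β)⁻¹ * (w * (C2 ^ (p - 2) * (D' ^ β * A ^ (p - 2))))
      = ((D ^ β)⁻¹ * D' ^ β) * (C2 ^ (p - 2) * (w * A ^ (p - 2))) := by ring
    _ ≤ κ ^ β * (C2 ^ (p - 2) * (w * A ^ (p - 2))) :=
        mul_le_mul_of_nonneg_right h7 (by positivity)
    _ = _ := by ring

end Pool.Agent.H48.BR
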