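import Pool.Agent.H48.BR.GG1

/-!
# BR board, module GG, part 2: the flat estimate
-/

set_option autoImplicit false

namespace Pool.Agent.H48.BR

open MeasureTheory Set FourierTransform Filter
open Pool.Agent.H83.AR Pool.Agent.H93.AR Pool.Agent.H83.LS Pool.Agent.H54.LS Pool.Agent.H14.LS
open scoped ENNReal NNReal Topology

attribute [local irreducible] MM m2 mS GM AQ A1 A2 AL MK

theorem beta_facts {a b : ℕ} {p : ℝ} (ha : 2 ≤ a) (hb : 2 ≤ b) (hp : 2 < p)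
    (hab : ((a : ℝ) + b - 1) * (p / 2 - 1) ≤ 1) :
    0 ≤ ((b : ℝ) - 1) * (p / 2 - 1) ∧ ((b : ℝ) - 1) * (p / 2 - 1) < 1 ∧
    (a : ℝ) * (p / 2 - 1) + ((b : ℝ) - 1) * (p / 2 - 1) ≤ 1 ∧
    (((b : ℝ) - 1) / 2) * (p - 2) = ((b : ℝ) - 1) * (p / 2 - 1) := by
  have ha2 : (2 : ℝ) ≤ a := by exact_mod_cast ha
  have hb2 : (2 : ℝ) ≤ b := by exact_mod_cast hb
  have hp0 : 0 < p / 2 - 1 := by linarith
  have h1 : 0 < (a : ℝ) * (p / 2 - 1) := by positivity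
  have h2 : (a : ℝ) * (p / 2 - 1) + ((b : ℝ) - 1) * (p / 2 - 1) ≤ 1 := by
    calc _ = ((a : ℝ) + b - 1) * (p / 2 - 1) := by ring
      _ ≤ 1 := hab
  exact ⟨mul_nonneg (by linarith) hp0.le, by linarith, h2, by ring⟩

theorem wt_bound {a b : ℕ} {A D s : ℝ} {f : EE (a + b) → ℂ} (hs : 0 ≤ s) (hD : 0 ≤ D)
    (hA : BCd A f) (hsupp : ∀ x, f x ≠ 0 → ‖p2 a b x‖ ≤ D) (x : EE (a + b)) :
    ‖p2 a b x‖ ^ s * ‖f x‖ ≤ D ^ s * A := by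
  have hA0 : 0 ≤ A := bcd_nonneg hA
  by_cases hx : f x = 0
  · rw [hx, norm_zero, mul_zero]
    positivity
  · exact mul_le_mul (Real.rpow_le_rpow (norm_nonneg _) (hsupp x hx) hs) (hA.2.1 x)
      (norm_nonneg _) (by positivity)

theorem flat (hPA : T_PAm) (hS1 : T_S1) (hGMB : T_GMB) (hGC : T_GC) (hAM : T_AM2)
    (hAC : T_AC2) (hJM : T_JM) (a b : ℕ) (p η : ℝ) (ha : 2 ≤ a) (hb : 2 ≤ b) (hp : 2 < p)
    (hab : ((a : ℝ) + b - 1) * (p / 2 - 1) ≤ 1) (hη : 0 < η) :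
    ∃ C : ℝ≥0, ∀ (lam Lam L A D D' : ℝ) (f : EE (a + b) → ℂ) (R : Set ℝ), 1 ≤ lam → 1 ≤ Lam →
    Lam ≤ 4 * lam → 1 ≤ L → BCd A f → 0 < D → 0 < D' → D' ≤ 8 * D →
    (∀ x, f x ≠ 0 → L ^ 2 ≤ Lam * ‖p2 a b x‖ ∧ ‖p2 a b x‖ ≤ D') → MeasurableSet R →
    (∀ r ∈ R, (0 < r ∧ L ^ 2 ≤ Lam * r) ∧ D ≤ r) →
    ∫⁻ t in Icc (1 : ℝ) 2, ∫⁻ x in {x : EE (a + b) | ‖p2 a b x‖ ∈ R},
      ‖MM (m2 a b lam Lam t) (AQ a b L f) x‖ₑ ^ p ≤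
      C * ENNReal.ofReal (L ^ 2 * lam ^ η * A ^ (p - 2)) * ∫⁻ x, ‖f x‖ₑ ^ 2 := by
  obtain ⟨hβ0, hβ1, hβ2, hsβ⟩ := beta_facts ha hb hp hab
  set β : ℝ := ((b : ℝ) - 1) * (p / 2 - 1) with hβ
  obtain ⟨C1, hC1⟩ := hPA a b p (by omega) hb (by linarith) hβ1 hβ0
  obtain ⟨C2, hC20, hC2⟩ := hGMB a b (by omega) hb
  obtain ⟨C3, hC3⟩ := hS1 a p β η ha hp hβ0 hβ2 hη
  refine ⟨C1 * C3 * Real.toNNReal (8 ^ β * C2 ^ (p - 2)) * Real.toNNReal C2, ?_⟩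
  intro lam Lam L A D D' f R hlam hLam hLL hL hA hD hD' hDD hsupp hR hRR
  have hb2 : (2 : ℝ) ≤ b := by exact_mod_cast hb
  have hlam0 : 0 < lam := by linarith
  have hLam0 : 0 < Lam := by linarith
  have hA0 : 0 ≤ A := bcd_nonneg hA
  have ha1 : 1 ≤ a := by omega
  have hb1 : 1 ≤ b := by omega
  have hsL : ∀ x, f x ≠ 0 → L ^ 2 ≤ Lam * ‖p2 a b x‖ := fun x hx => (hsupp x hx).1
  set A' : ℝ := D' ^ (((b : ℝ) - 1) / 2) * A with hA'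
  have hA10 : 0 ≤ A' := by positivity
  have hAA : ∀ x, ‖p2 a b x‖ ^ (((b : ℝ) - 1) / 2) * ‖f x‖ ≤ A' :=
    wt_bound (by linarith) hD'.le hA fun x hx => (hsupp x hx).2
  obtain ⟨gm, gb, g2⟩ := hC2 L Lam A' A f hL hLam0 hA hsL hAA
  set g : EE (a + b) → ℂ := A1 a b L (A1 a b L f) with hg
  have hgb : BCd A g := P_bcd hJM hAM ha1 hb1 hL (Or.inl rfl)
    (P_bcd hJM hAM ha1 hb1 hL (Or.inl rfl) hA)
  have hgs : ∀ x, g x ≠ 0 → L ^ 2 ≤ Lam * ‖p2 a b x‖ ∧ ‖p2 a b x‖ ≤ D' :=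
    P_supp hAM ha1 hb1 hL (Or.inl rfl) (R := {r | L ^ 2 ≤ Lam * r ∧ r ≤ D'})
      (P_supp hAM ha1 hb1 hL (Or.inl rfl) (R := {r | L ^ 2 ≤ Lam * r ∧ r ≤ D'}) hsupp)
  have hgs1 : ∀ x, g x ≠ 0 → L ^ 2 ≤ Lam * ‖p2 a b x‖ := fun x hx => (hgs x hx).1
  have hGA : ∀ x, ‖p2 a b x‖ ^ (((b : ℝ) - 1) / 2) * ‖g x‖ ≤ A' :=
    wt_bound (by linarith) hD'.le hgb fun x hx => (hgs x hx).2
  have gm' := (hC2 L Lam A' A g hL hLam0 hgb hgs1 hGA).1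
  have hGM : ∀ v, GM a b L Lam g v = AL L (AL L (GM a b L Lam f v)) := fun v =>
    GM_avg hJM hAM hGC ha1 hb hL hLam0 hA hsL v
  rw [AQ_eq hJM hAM hAC ha1 hb1 hL hA]
  have step1 : ∀ t, ∫⁻ x in {x : EE (a + b) | ‖p2 a b x‖ ∈ R},
      ‖MM (m2 a b lam Lam t) (A2 a b L (A2 a b L g)) x‖ₑ ^ p ≤
      C1 * ENNReal.ofReal (D ^ (-β)) *
        ∫⁻ v : Sp b, ∫⁻ X : EE (a + 1), ‖MM (mS a lam Lam t) (GM a b L Lam g v) X‖ₑ ^ p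
          ∂volume ∂(sg b) := fun t =>
    (hC1 L lam Lam t A g R hL hlam0 hLam0 hgb hgs1 hR (fun r hr => (hRR r hr).1)).2 D hD
      (fun r hr => (hRR r hr).2)
  have hsw := swap_int (p := p) (m := fun t => mS a lam Lam t) (G := GM a b L Lam g)
    (mS_meas a lam Lam) gm' (W := fun _ => (1 : ℝ≥0∞)) measurable_const
  simp only [mul_one] at hsw
  calc ∫⁻ t in Icc (1 : ℝ) 2, ∫⁻ x in {x : EE (a + b) | ‖p2 a b x‖ ∈ R},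
      ‖MM (m2 a b lam Lam t) (A2 a b L (A2 a b L g)) x‖ₑ ^ p
      ≤ ∫⁻ t in Icc (1 : ℝ) 2, C1 * ENNReal.ofReal (D ^ (-β)) *
        ∫⁻ v : Sp b, ∫⁻ X : EE (a + 1), ‖MM (mS a lam Lam t) (GM a b L Lam g v) X‖ₑ ^ p
          ∂volume ∂(sg b) := lintegral_mono step1
    _ = C1 * ENNReal.ofReal (D ^ (-β)) * ∫⁻ v : Sp b, ∫⁻ t in Icc (1 : ℝ) 2,
        ∫⁻ X : EE (a + 1), ‖MM (mS a lam Lam t) (GM a b L Lam g v) X‖ₑ ^ p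
          ∂volume ∂volume ∂(sg b) := by
        rw [lintegral_const_mul' _ _ (ENNReal.mul_ne_top ENNReal.coe_ne_top
          ENNReal.ofReal_ne_top), hsw]
    _ ≤ C1 * ENNReal.ofReal (D ^ (-β)) * ∫⁻ v : Sp b,
        C3 * ENNReal.ofReal (L ^ 2 * lam ^ η * (C2 * A') ^ (p - 2)) *
          ∫⁻ y, ‖GM a b L Lam f v y‖ₑ ^ 2 ∂volume ∂(sg b) := by
        gcongr with v
        rw [hGM v]
        exact (hC3 lam Lam L (C2 * A') (GM a b L Lam f v) hlam hLam hLL hL (gb v)).1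
    _ = C1 * ENNReal.ofReal (D ^ (-β)) *
        (C3 * ENNReal.ofReal (L ^ 2 * lam ^ η * (C2 * A') ^ (p - 2)) *
          ∫⁻ v : Sp b, ∫⁻ y, ‖GM a b L Lam f v y‖ₑ ^ 2 ∂volume ∂(sg b)) := by
        rw [lintegral_const_mul' _ _ (ENNReal.mul_ne_top ENNReal.coe_ne_top
          ENNReal.ofReal_ne_top)]
    _ ≤ C1 * ENNReal.ofReal (D ^ (-β)) *
        (C3 * ENNReal.ofReal (L ^ 2 * lam ^ η * (C2 * A') ^ (p - 2)) *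
          (ENNReal.ofReal C2 * ∫⁻ x, ‖f x‖ₑ ^ 2)) := by
        gcongr
    _ = (C1 * C3 * ENNReal.ofReal C2) * (ENNReal.ofReal (D ^ (-β)) *
        ENNReal.ofReal (L ^ 2 * lam ^ η * (C2 * A') ^ (p - 2))) * ∫⁻ x, ‖f x‖ₑ ^ 2 := by ring
    _ ≤ (C1 * C3 * ENNReal.ofReal C2) * ((Real.toNNReal (8 ^ β * C2 ^ (p - 2)) : ℝ≥0∞) *
        ENNReal.ofReal (L ^ 2 * lam ^ η * A ^ (p - 2))) * ∫⁻ x, ‖f x‖ₑ ^ 2 := by
        have h9 := arithw (D := D) (D' := D')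
          (s := ((b : ℝ) - 1) / 2) (β := β) (A := A) (C2 := C2) (w := L ^ 2 * lam ^ η) (p := p)
          (κ := 8) hD hD' (by norm_num) hDD hA0 hC20 (by positivity) hβ0 hsβ
        gcongr
    _ = _ := by
        push_cast
        rw [show ENNReal.ofReal C2 = (Real.toNNReal C2 : ℝ≥0∞) from rfl]
        ring

end Pool.Agent.H48.BR
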