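import Pool.Agent.H48.BR.GG2

/-!
# BR board, module GG, part 3: one dyadic shell
-/

set_option autoImplicit false

namespace Pool.Agent.H48.BR

open MeasureTheory Set FourierTransform Filter
open Pool.Agent.H83.AR Pool.Agent.H93.AR Pool.Agent.H83.LS Pool.Agent.H54.LS Pool.Agent.H14.LS
open scoped ENNReal NNReal Topology

theorem p2_sub (a b : ℕ) (x y : EE (a + b)) : p2 a b (x - y) = p2 a b x - p2 a b y := by
  ext i
  rfl

theorem Wt_meas (a : ℕ) (Lam β : ℝ) : Measurable fun X : EE (a + 1) =>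
    ENNReal.ofReal ((|X (Fin.last a)| + 1 / Lam) ^ (-β)) := by
  have h1 : Continuous fun X : EE (a + 1) => |X (Fin.last a)| := by fun_prop
  exact ((h1.measurable.add_const _).pow_const _).ennreal_ofReal

theorem enorm_int_le {E : Type*} [AddCommGroup E] [MeasurableSpace E]
    {μ : Measure E} {K F : E → ℂ} {A : ℝ} (hA : ∀ y, ‖F y‖ ≤ A) (x : E) {T : Set E}
    (hT : ∀ y, F y ≠ 0 → x - y ∈ T) :
    ‖∫ y, K (x - y) * F y ∂μ‖ₑ ≤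
      ∫⁻ y, T.indicator (fun z => ‖K z‖ₑ) (x - y) * ENNReal.ofReal A ∂μ := by
  refine (enorm_integral_le_lintegral_enorm _).trans (lintegral_mono fun y => ?_)
  simp only
  by_cases hy : F y = 0
  · rw [hy, mul_zero, enorm_zero]
    exact zero_le
  · rw [indicator_of_mem (hT y hy), enorm_mul]
    gcongr
    rw [← ofReal_norm_eq_enorm]
    exact ENNReal.ofReal_le_ofReal (hA y)

attribute [local irreducible] MM m2 mS GM AQ A1 A2 AL MK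

theorem pieceA (hPA : T_PAm) (hWP : T_WPm) (hGMB : T_GMB) (hGC : T_GC) (hAM : T_AM2)
    (hAC : T_AC2) (hJM : T_JM) (a b : ℕ) (p η : ℝ) (ha : 2 ≤ a) (hb : 2 ≤ b) (hp : 2 < p)
    (hab : ((a : ℝ) + b - 1) * (p / 2 - 1) ≤ 1) (hη : 0 < η) :
    ∃ C : ℝ≥0, ∀ (lam Lam L A D : ℝ) (f : EE (a + b) → ℂ), 1 ≤ lam → 1 ≤ Lam →
    Lam ≤ 4 * lam → 1 ≤ L → BCd A f → 0 < D → L ^ 2 ≤ Lam * D →
    (∀ x, f x ≠ 0 → D ≤ ‖p2 a b x‖ ∧ ‖p2 a b x‖ ≤ 2 * D) → D * lam ≤ lam ^ η * Lam →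
    ∫⁻ t in Icc (1 : ℝ) 2, ∫⁻ x in {x : EE (a + b) | L ^ 2 ≤ Lam * ‖p2 a b x‖},
      ‖MM (m2 a b lam Lam t) (AQ a b L f) x‖ₑ ^ p ≤
      C * ENNReal.ofReal (L ^ 2 * lam ^ (3 * η) * A ^ (p - 2)) * ∫⁻ x, ‖f x‖ₑ ^ 2 := by
  obtain ⟨hβ0, hβ1, hβ2, hsβ⟩ := beta_facts ha hb hp hab
  set β : ℝ := ((b : ℝ) - 1) * (p / 2 - 1) with hβ
  obtain ⟨C1, hC1⟩ := hPA a b p (by omega) hb (by linarith) hβ1 hβ0
  obtain ⟨C2, hC20, hC2⟩ := hGMB a b (by omega) hb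
  obtain ⟨C3, hC3⟩ := hWP a p β η ha hp hβ0 hβ1 hβ2 hη
  refine ⟨C1 * C3 * Real.toNNReal (8 ^ β * C2 ^ (p - 2)) * Real.toNNReal C2, ?_⟩
  intro lam Lam L A D f hlam hLam hLL hL hA hD hLD hsupp hDl
  have hb2 : (2 : ℝ) ≤ b := by exact_mod_cast hb
  have hlam0 : 0 < lam := by linarith
  have hLam0 : 0 < Lam := by linarith
  have hA0 : 0 ≤ A := bcd_nonneg hA
  have ha1 : 1 ≤ a := by omega
  have hb1 : 1 ≤ b := by omega
  have hL2 : (1 : ℝ) ≤ L ^ 2 := one_le_pow₀ hL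
  have hLD1 : 1 ≤ Lam * D := hL2.trans hLD
  have hsL : ∀ x, f x ≠ 0 → L ^ 2 ≤ Lam * ‖p2 a b x‖ := fun x hx =>
    hLD.trans (mul_le_mul_of_nonneg_left (hsupp x hx).1 hLam0.le)
  set A' : ℝ := (2 * D) ^ (((b : ℝ) - 1) / 2) * A with hA'
  have hA10 : 0 ≤ A' := by positivity
  have hAA : ∀ x, ‖p2 a b x‖ ^ (((b : ℝ) - 1) / 2) * ‖f x‖ ≤ A' :=
    wt_bound (by linarith) (by positivity) hA fun x hx => (hsupp x hx).2
  obtain ⟨gm, gb, g2⟩ := hC2 L Lam A' A f hL hLam0 hA hsL hAA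
  set g : EE (a + b) → ℂ := A1 a b L (A1 a b L f) with hg
  have hgb : BCd A g := P_bcd hJM hAM ha1 hb1 hL (Or.inl rfl)
    (P_bcd hJM hAM ha1 hb1 hL (Or.inl rfl) hA)
  have hgs : ∀ x, g x ≠ 0 → D ≤ ‖p2 a b x‖ ∧ ‖p2 a b x‖ ≤ 2 * D :=
    P_supp hAM ha1 hb1 hL (Or.inl rfl) (R := {r | D ≤ r ∧ r ≤ 2 * D})
      (P_supp hAM ha1 hb1 hL (Or.inl rfl) (R := {r | D ≤ r ∧ r ≤ 2 * D}) hsupp)
  have hgs1 : ∀ x, g x ≠ 0 → L ^ 2 ≤ Lam * ‖p2 a b x‖ := fun x hx =>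
    hLD.trans (mul_le_mul_of_nonneg_left (hgs x hx).1 hLam0.le)
  have hGA : ∀ x, ‖p2 a b x‖ ^ (((b : ℝ) - 1) / 2) * ‖g x‖ ≤ A' :=
    wt_bound (by linarith) (by positivity) hgb fun x hx => (hgs x hx).2
  have gm' := (hC2 L Lam A' A g hL hLam0 hgb hgs1 hGA).1
  have hGM : ∀ v, GM a b L Lam g v = AL L (AL L (GM a b L Lam f v)) := fun v =>
    GM_avg hJM hAM hGC ha1 hb hL hLam0 hA hsL v
  rw [AQ_eq hJM hAM hAC ha1 hb1 hL hA]
  have hR : MeasurableSet {r : ℝ | 0 < r ∧ L ^ 2 ≤ Lam * r} :=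
    (measurableSet_lt measurable_const measurable_id).inter
      (measurableSet_le measurable_const (measurable_id.const_mul _))
  have hset : {x : EE (a + b) | L ^ 2 ≤ Lam * ‖p2 a b x‖} =
      {x : EE (a + b) | ‖p2 a b x‖ ∈ {r : ℝ | 0 < r ∧ L ^ 2 ≤ Lam * r}} := by
    ext x
    simp only [mem_ofPred_eq]
    constructor
    · intro h
      refine ⟨?_, h⟩
      by_contra h0
      have h1 : ‖p2 a b x‖ ≤ 0 := not_lt.1 h0
      nlinarith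
    · exact fun h => h.2
  have step1 : ∀ t, ∫⁻ x in {x : EE (a + b) | L ^ 2 ≤ Lam * ‖p2 a b x‖},
      ‖MM (m2 a b lam Lam t) (A2 a b L (A2 a b L g)) x‖ₑ ^ p ≤
      C1 * ∫⁻ v : Sp b, ∫⁻ X : EE (a + 1), ‖MM (mS a lam Lam t) (GM a b L Lam g v) X‖ₑ ^ p *
        ENNReal.ofReal ((|X (Fin.last a)| + 1 / Lam) ^ (-β)) ∂volume ∂(sg b) := by
    intro t
    rw [hset]
    exact (hC1 L lam Lam t A g {r : ℝ | 0 < r ∧ L ^ 2 ≤ Lam * r} hL hlam0 hLam0 hgb hgs1 hR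
      (fun r hr => hr)).1
  have hsw := swap_int (p := p) (m := fun t => mS a lam Lam t) (G := GM a b L Lam g)
    (mS_meas a lam Lam) gm'
    (W := fun X => ENNReal.ofReal ((|X (Fin.last a)| + 1 / Lam) ^ (-β))) (Wt_meas a Lam β)
  calc ∫⁻ t in Icc (1 : ℝ) 2, ∫⁻ x in {x : EE (a + b) | L ^ 2 ≤ Lam * ‖p2 a b x‖},
      ‖MM (m2 a b lam Lam t) (A2 a b L (A2 a b L g)) x‖ₑ ^ p
      ≤ ∫⁻ t in Icc (1 : ℝ) 2, C1 * ∫⁻ v : Sp b, ∫⁻ X : EE (a + 1),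
        ‖MM (mS a lam Lam t) (GM a b L Lam g v) X‖ₑ ^ p *
        ENNReal.ofReal ((|X (Fin.last a)| + 1 / Lam) ^ (-β)) ∂volume ∂(sg b) :=
        lintegral_mono step1
    _ = C1 * ∫⁻ v : Sp b, ∫⁻ t in Icc (1 : ℝ) 2,
        ∫⁻ X : EE (a + 1), ‖MM (mS a lam Lam t) (GM a b L Lam g v) X‖ₑ ^ p *
        ENNReal.ofReal ((|X (Fin.last a)| + 1 / Lam) ^ (-β)) ∂volume ∂volume ∂(sg b) := by
        rw [lintegral_const_mul' _ _ ENNReal.coe_ne_top, hsw]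
    _ ≤ C1 * ∫⁻ v : Sp b,
        C3 * ENNReal.ofReal (L ^ 2 * lam ^ (3 * η) * D ^ (-β) * (C2 * A') ^ (p - 2)) *
          ∫⁻ y, ‖GM a b L Lam f v y‖ₑ ^ 2 ∂volume ∂(sg b) := by
        gcongr with v
        rw [hGM v]
        exact hC3 lam Lam L (C2 * A') D (GM a b L Lam f v) hlam hLam hLL hL hLD1 hDl (gb v)
    _ = C1 *
        (C3 * ENNReal.ofReal (L ^ 2 * lam ^ (3 * η) * D ^ (-β) * (C2 * A') ^ (p - 2)) *
          ∫⁻ v : Sp b, ∫⁻ y, ‖GM a b L Lam f v y‖ₑ ^ 2 ∂volume ∂(sg b)) := by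
        rw [lintegral_const_mul' _ _ (ENNReal.mul_ne_top ENNReal.coe_ne_top
          ENNReal.ofReal_ne_top)]
    _ ≤ C1 *
        (C3 * ENNReal.ofReal (L ^ 2 * lam ^ (3 * η) * D ^ (-β) * (C2 * A') ^ (p - 2)) *
          (ENNReal.ofReal C2 * ∫⁻ x, ‖f x‖ₑ ^ 2)) := by
        gcongr
    _ = (C1 * C3 * ENNReal.ofReal C2) * (ENNReal.ofReal (D ^ (-β)) *
        ENNReal.ofReal (L ^ 2 * lam ^ (3 * η) * (C2 * A') ^ (p - 2))) *
          ∫⁻ x, ‖f x‖ₑ ^ 2 := by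
        have e1 : ENNReal.ofReal (L ^ 2 * lam ^ (3 * η) * D ^ (-β) * (C2 * A') ^ (p - 2)) =
            ENNReal.ofReal (D ^ (-β)) *
              ENNReal.ofReal (L ^ 2 * lam ^ (3 * η) * (C2 * A') ^ (p - 2)) := by
          rw [← ENNReal.ofReal_mul (by positivity)]
          congr 1
          ring
        rw [e1]
        ring
    _ ≤ (C1 * C3 * ENNReal.ofReal C2) * ((Real.toNNReal (8 ^ β * C2 ^ (p - 2)) : ℝ≥0∞) *
        ENNReal.ofReal (L ^ 2 * lam ^ (3 * η) * A ^ (p - 2))) * ∫⁻ x, ‖f x‖ₑ ^ 2 := by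
        have h9 := arithw (D := D) (D' := 2 * D)
          (s := ((b : ℝ) - 1) / 2) (β := β) (A := A) (C2 := C2) (w := L ^ 2 * lam ^ (3 * η))
          (p := p) (κ := 8) hD (by positivity) (by norm_num) (by linarith) hA0 hC20
          (by positivity) hβ0 hsβ
        gcongr
    _ = _ := by
        push_cast
        rw [show ENNReal.ofReal C2 = (Real.toNNReal C2 : ℝ≥0∞) from rfl]
        ring

theorem pieceK (hKF : T_KF) (hPLE : T_PLE) (hAM : T_AM2) (hJM : T_JM) (a b : ℕ) (p η : ℝ)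
    (ha : 2 ≤ a) (hb : 2 ≤ b) (hp : 2 < p) (hη : 0 < η) :
    ∃ C : ℝ≥0, ∀ (lam Lam L A D t : ℝ) (f : EE (a + b) → ℂ), 1 ≤ lam → lam ≤ Lam ^ 2 → 1 ≤ Lam →
    Lam ≤ 4 * lam → 1 ≤ L → t ∈ Icc (1 : ℝ) 2 → BCd A f → 0 < D →
    (∀ x, f x ≠ 0 → D ≤ ‖p2 a b x‖) → lam ^ η * Lam ≤ D * lam →
    ∫⁻ x in {x : EE (a + b) | ‖p2 a b x‖ < D / 4},
      ‖MM (m2 a b lam Lam t) (AQ a b L f) x‖ₑ ^ p ≤
      C * ENNReal.ofReal (A ^ (p - 2)) * ∫⁻ x, ‖f x‖ₑ ^ 2 := by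
  obtain ⟨C6, hC6⟩ := hKF a b 0 η (by omega) hb hη
  refine ⟨C6 ^ (p - 2), ?_⟩
  intro lam Lam L A D t f hlam hlL hLam hLL hL ht hA hD hsupp hDl
  have hlam0 : 0 < lam := by linarith
  have hLam0 : 0 < Lam := by linarith
  have hA0 : 0 ≤ A := bcd_nonneg hA
  have ha1 : 1 ≤ a := by omega
  have hb1 : 1 ≤ b := by omega
  set F : EE (a + b) → ℂ := AQ a b L f with hF
  have hFb : BCd A F := AQ_bcd hJM hAM ha1 hb1 hL hA
  have hFs : ∀ x, F x ≠ 0 → D ≤ ‖p2 a b x‖ :=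
    AQ_supp hAM ha1 hb1 hL (R := {r | D ≤ r}) hsupp
  obtain ⟨q1, q2⟩ := hPLE (a + b) (m2 a b lam Lam t) F (m2_meas' hJM lam Lam t)
    (fun ξ => (m2_le lam Lam t ξ).trans (mT_le_one lam t ξ)) (m2_int hJM hlam0 Lam t)
    (bcd_int hFb) ⟨A, hFb.2.1⟩ hFb.1
  set T : Set (EE (a + b)) := {x | D / 2 ≤ ‖p2 a b x‖} with hTdef
  have hT : MeasurableSet T := measurableSet_le measurable_const (p2_norm_meas hJM)
  have hk : ∫⁻ z, T.indicator (fun z => ‖MK (m2 a b lam Lam t) z‖ₑ) z ≤ C6 := by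
    rw [lintegral_indicator hT]
    refine (hC6 lam Lam t (D / 2) hlam hlL hLam hLL ht ?_).trans ?_
    · have h0 : 0 < D * lam := by positivity
      linarith
    · simp
  have hsup : ∀ x ∈ {x : EE (a + b) | ‖p2 a b x‖ < D / 4},
      ‖MM (m2 a b lam Lam t) F x‖ₑ ≤ ENNReal.ofReal (C6 * A) := by
    intro x hx
    rw [q1 x]
    have hx' : ‖p2 a b x‖ < D / 4 := hx
    refine (enorm_int_le hFb.2.1 x (T := T) ?_).trans ?_
    · intro y hy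
      have h1 := hFs y hy
      show D / 2 ≤ ‖p2 a b (x - y)‖
      rw [p2_sub]
      have h2 : ‖p2 a b y‖ - ‖p2 a b x‖ ≤ ‖p2 a b x - p2 a b y‖ := by
        rw [norm_sub_rev]
        exact norm_sub_norm_le _ _
      linarith
    · rw [lintegral_mul_const' _ _ ENNReal.ofReal_ne_top,
        lintegral_sub_left_eq_self (fun z => T.indicator (fun z => ‖MK (m2 a b lam Lam t) z‖ₑ) z) x,
        ENNReal.ofReal_mul (by positivity), ENNReal.ofReal_coe_nnreal]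
      gcongr
  have hS : MeasurableSet {x : EE (a + b) | ‖p2 a b x‖ < D / 4} :=
    measurableSet_lt (p2_norm_meas hJM) measurable_const
  have hpt : ∀ x ∈ {x : EE (a + b) | ‖p2 a b x‖ < D / 4},
      ‖MM (m2 a b lam Lam t) F x‖ₑ ^ p ≤
        ENNReal.ofReal ((C6 * A) ^ (p - 2)) * ‖MM (m2 a b lam Lam t) F x‖ₑ ^ 2 := by
    intro x hx
    have h1 : ‖MM (m2 a b lam Lam t) F x‖ₑ ^ p =
        ‖MM (m2 a b lam Lam t) F x‖ₑ ^ (p - 2) * ‖MM (m2 a b lam Lam t) F x‖ₑ ^ 2 := by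
      rw [← ENNReal.rpow_natCast, ← ENNReal.rpow_add_of_nonneg _ _ (by linarith) (by norm_num)]
      congr 1; push_cast; ring
    rw [h1]
    gcongr
    rw [← ENNReal.ofReal_rpow_of_nonneg (by positivity) (by linarith)]
    exact ENNReal.rpow_le_rpow (hsup x hx) (by linarith)
  have hsq : ∫⁻ x, ‖F x‖ₑ ^ 2 ≤ ∫⁻ x, ‖f x‖ₑ ^ 2 := by
    have h := AQ_pow hAM ha1 hb1 hL (p := 2) (by norm_num) hA.1
    simpa only [ENNReal.rpow_two] using h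
  calc ∫⁻ x in {x : EE (a + b) | ‖p2 a b x‖ < D / 4}, ‖MM (m2 a b lam Lam t) F x‖ₑ ^ p
      ≤ ∫⁻ x in {x : EE (a + b) | ‖p2 a b x‖ < D / 4},
        ENNReal.ofReal ((C6 * A) ^ (p - 2)) * ‖MM (m2 a b lam Lam t) F x‖ₑ ^ 2 :=
        setLIntegral_mono' hS hpt
    _ ≤ ENNReal.ofReal ((C6 * A) ^ (p - 2)) * ∫⁻ x, ‖MM (m2 a b lam Lam t) F x‖ₑ ^ 2 := by
        rw [← lintegral_const_mul' _ _ ENNReal.ofReal_ne_top]
        exact setLIntegral_le_lintegral _ _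
    _ ≤ ENNReal.ofReal ((C6 * A) ^ (p - 2)) * ∫⁻ x, ‖f x‖ₑ ^ 2 := by
        exact mul_le_mul_right (q2.trans hsq) _
    _ = _ := by
        rw [Real.mul_rpow (by positivity) hA0, ENNReal.ofReal_mul (by positivity)]
        congr 2
        rw [← NNReal.coe_rpow, ENNReal.ofReal_coe_nnreal]

end Pool.Agent.H48.BR
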