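import Pool.Agent.H48.BR.GG3

/-!
# BR board, module GG, part 4: summation
-/

set_option autoImplicit false

namespace Pool.Agent.H48.BR

open MeasureTheory Set FourierTransform Filter
open Pool.Agent.H83.AR Pool.Agent.H93.AR Pool.Agent.H83.LS Pool.Agent.H54.LS Pool.Agent.H14.LS
open scoped ENNReal NNReal Topology

theorem const_int (c : ℝ≥0∞) : ∫⁻ _ in Icc (1 : ℝ) 2, c = c := by
  rw [lintegral_const, Measure.restrict_apply MeasurableSet.univ, univ_inter, Real.volume_Icc]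
  norm_num

theorem split_int {d : ℕ} {G : ℝ → EE d → ℝ≥0∞} {S S1 S2 : Set (EE d)} (hS : S ⊆ S1 ∪ S2)
    {c : ℝ≥0∞} (hc : ∀ t ∈ Icc (1 : ℝ) 2, ∫⁻ x in S2, G t x ≤ c) :
    ∫⁻ t in Icc (1 : ℝ) 2, ∫⁻ x in S, G t x ≤ (∫⁻ t in Icc (1 : ℝ) 2, ∫⁻ x in S1, G t x) + c := by
  calc ∫⁻ t in Icc (1 : ℝ) 2, ∫⁻ x in S, G t x
      ≤ ∫⁻ t in Icc (1 : ℝ) 2, ((∫⁻ x in S1, G t x) + c) := by
        refine setLIntegral_mono' measurableSet_Icc fun t ht => ?_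
        refine (lintegral_mono_set hS).trans ((lintegral_union_le _ _ _).trans ?_)
        gcongr
        exact hc t ht
    _ = _ := by rw [lintegral_add_right _ measurable_const, const_int]

attribute [local irreducible] MM m2 mS GM AQ A1 A2 AL MK

theorem near_piece (hPA : T_PAm) (hWP : T_WPm) (hS1 : T_S1) (hKF : T_KF) (hGMB : T_GMB)
    (hGC : T_GC) (hAM : T_AM2) (hAC : T_AC2) (hPLE : T_PLE) (hJM : T_JM) (a b : ℕ) (p η : ℝ)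
    (ha : 2 ≤ a) (hb : 2 ≤ b) (hp : 2 < p)
    (hab : ((a : ℝ) + b - 1) * (p / 2 - 1) ≤ 1) (hη : 0 < η) :
    ∃ C : ℝ≥0, ∀ (lam Lam L A D : ℝ) (f : EE (a + b) → ℂ), 1 ≤ lam → lam ≤ Lam ^ 2 → 1 ≤ Lam →
    Lam ≤ 4 * lam → 1 ≤ L → BCd A f → 0 < D → L ^ 2 ≤ Lam * D →
    (∀ x, f x ≠ 0 → D ≤ ‖p2 a b x‖ ∧ ‖p2 a b x‖ ≤ 2 * D) →
    ∫⁻ t in Icc (1 : ℝ) 2, ∫⁻ x in {x : EE (a + b) | L ^ 2 ≤ Lam * ‖p2 a b x‖},
      ‖MM (m2 a b lam Lam t) (AQ a b L f) x‖ₑ ^ p ≤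
      C * ENNReal.ofReal (L ^ 2 * lam ^ η * A ^ (p - 2)) * ∫⁻ x, ‖f x‖ₑ ^ 2 := by
  obtain ⟨Ca, hCa⟩ := pieceA hPA hWP hGMB hGC hAM hAC hJM a b p (η / 3) ha hb hp hab
    (by linarith)
  obtain ⟨Cb, hCb⟩ := flat hPA hS1 hGMB hGC hAM hAC hJM a b p η ha hb hp hab hη
  obtain ⟨Ck, hCk⟩ := pieceK hKF hPLE hAM hJM a b p (η / 3) ha hb hp (by linarith)
  refine ⟨Ca + Cb + Ck, ?_⟩
  intro lam Lam L A D f hlam hlL hLam hLL hL hA hD hLD hsupp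
  have hlam0 : 0 < lam := by linarith
  have hLam0 : 0 < Lam := by linarith
  have hA0 : 0 ≤ A := bcd_nonneg hA
  have hL2 : (1 : ℝ) ≤ L ^ 2 := one_le_pow₀ hL
  by_cases hcase : D * lam ≤ lam ^ (η / 3) * Lam
  · refine (hCa lam Lam L A D f hlam hLam hLL hL hA hD hLD hsupp hcase).trans ?_
    rw [show 3 * (η / 3) = η by ring]
    push_cast
    gcongr
    rw [add_assoc]
    exact le_self_add
  · push Not at hcase
    have hR : MeasurableSet {r : ℝ | (0 < r ∧ L ^ 2 ≤ Lam * r) ∧ D / 4 ≤ r} :=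
      ((measurableSet_lt measurable_const measurable_id).inter
        (measurableSet_le measurable_const (measurable_id.const_mul _))).inter
        (measurableSet_le measurable_const measurable_id)
    have hsub : {x : EE (a + b) | L ^ 2 ≤ Lam * ‖p2 a b x‖} ⊆
        {x : EE (a + b) | ‖p2 a b x‖ ∈ {r : ℝ | (0 < r ∧ L ^ 2 ≤ Lam * r) ∧ D / 4 ≤ r}} ∪
        {x : EE (a + b) | ‖p2 a b x‖ < D / 4} := by
      intro x hx
      have hx' : L ^ 2 ≤ Lam * ‖p2 a b x‖ := hx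
      by_cases h : ‖p2 a b x‖ < D / 4
      · exact Or.inr h
      · push Not at h
        refine Or.inl ⟨⟨?_, hx'⟩, h⟩
        linarith
    have hk := fun t (ht : t ∈ Icc (1 : ℝ) 2) => hCk lam Lam L A D t f hlam hlL hLam hLL hL ht hA
      hD (fun x hx => (hsupp x hx).1) hcase.le
    refine (split_int (G := fun t x => ‖MM (m2 a b lam Lam t) (AQ a b L f) x‖ₑ ^ p) hsub
      hk).trans ?_
    have hf := hCb lam Lam L A (D / 4) (2 * D) f _ hlam hLam hLL hL hA (by positivity)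
      (by positivity) (by linarith) (fun x hx => ⟨hLD.trans
        (mul_le_mul_of_nonneg_left (hsupp x hx).1 hLam0.le), (hsupp x hx).2⟩) hR (fun r hr => hr)
    have h1 : ENNReal.ofReal (A ^ (p - 2)) ≤ ENNReal.ofReal (L ^ 2 * lam ^ η * A ^ (p - 2)) := by
      apply ENNReal.ofReal_le_ofReal
      have h2 : (1 : ℝ) ≤ lam ^ η := Real.one_le_rpow hlam hη.le
      have h3 : (1 : ℝ) ≤ L ^ 2 * lam ^ η := one_le_mul_of_one_le_of_one_le hL2 h2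
      exact le_mul_of_one_le_left (by positivity) h3
    calc (∫⁻ t in Icc (1 : ℝ) 2, ∫⁻ x in
          {x : EE (a + b) | ‖p2 a b x‖ ∈ {r : ℝ | (0 < r ∧ L ^ 2 ≤ Lam * r) ∧ D / 4 ≤ r}},
          ‖MM (m2 a b lam Lam t) (AQ a b L f) x‖ₑ ^ p) +
          Ck * ENNReal.ofReal (A ^ (p - 2)) * ∫⁻ x, ‖f x‖ₑ ^ 2
        ≤ (Cb * ENNReal.ofReal (L ^ 2 * lam ^ η * A ^ (p - 2)) * ∫⁻ x, ‖f x‖ₑ ^ 2) +
          Ck * ENNReal.ofReal (L ^ 2 * lam ^ η * A ^ (p - 2)) * ∫⁻ x, ‖f x‖ₑ ^ 2 := by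
          refine add_le_add hf ?_
          gcongr
      _ = (Cb + Ck : ℝ≥0∞) * ENNReal.ofReal (L ^ 2 * lam ^ η * A ^ (p - 2)) *
          ∫⁻ x, ‖f x‖ₑ ^ 2 := by ring
      _ ≤ _ := by
          push_cast
          gcongr
          exact le_add_self

theorem far (hPA : T_PAm) (hS1 : T_S1) (hGMB : T_GMB) (hGC : T_GC) (hAM : T_AM2)
    (hAC : T_AC2) (hJM : T_JM) (a b : ℕ) (p η : ℝ) (ha : 2 ≤ a) (hb : 2 ≤ b) (hp : 2 < p)
    (hab : ((a : ℝ) + b - 1) * (p / 2 - 1) ≤ 1) (hη : 0 < η) :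
    ∃ C : ℝ≥0, ∀ (lam Lam L A : ℝ) (f : EE (a + b) → ℂ), 1 ≤ lam → 1 ≤ Lam →
    Lam ≤ 4 * lam → 1 ≤ L → L ^ 2 ≤ 8 * Lam → BCd A f → ∀ i : ℕ, 2 ≤ i →
    (∀ x, f x ≠ 0 → 8 * ((i : ℝ) - 1) ≤ ‖p2 a b x‖ ∧ ‖p2 a b x‖ ≤ 8 * ((i : ℝ) + 2)) →
    ∫⁻ t in Icc (1 : ℝ) 2, ∫⁻ x in {x : EE (a + b) | 8 * (i : ℝ) ≤ ‖p2 a b x‖ ∧
      ‖p2 a b x‖ ≤ 8 * ((i : ℝ) + 1)}, ‖MM (m2 a b lam Lam t) (AQ a b L f) x‖ₑ ^ p ≤
      C * ENNReal.ofReal (L ^ 2 * lam ^ η * A ^ (p - 2)) * ∫⁻ x, ‖f x‖ₑ ^ 2 := by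
  obtain ⟨Cb, hCb⟩ := flat hPA hS1 hGMB hGC hAM hAC hJM a b p η ha hb hp hab hη
  refine ⟨Cb, ?_⟩
  intro lam Lam L A f hlam hLam hLL hL hL8 hA i hi hsupp
  have hi2 : (2 : ℝ) ≤ i := by exact_mod_cast hi
  refine hCb lam Lam L A (8 * (i : ℝ)) (8 * ((i : ℝ) + 2)) f
    (Icc (8 * (i : ℝ)) (8 * ((i : ℝ) + 1))) hlam hLam hLL hL hA (by positivity) (by positivity)
    (by linarith) ?_ measurableSet_Icc ?_
  · intro x hx
    refine ⟨?_, (hsupp x hx).2⟩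
    have h1 := (hsupp x hx).1
    have h2 : 8 * Lam ≤ Lam * ‖p2 a b x‖ := by nlinarith
    linarith
  · intro r hr
    have h1 : 16 ≤ r := by linarith [hr.1]
    exact ⟨⟨by linarith, by nlinarith⟩, hr.1⟩

theorem MM_meas_cut (hJM : T_JM) {a b : ℕ} {lam Lam p A : ℝ} {F : EE (a + b) → ℂ}
    (hF : BCd A F) {R : Set ℝ} (hR : MeasurableSet R) : Measurable fun q : ℝ × EE (a + b) =>
        ‖MM (m2 a b lam Lam q.1) (cut2 R F) q.2‖ₑ ^ p :=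
  (MM_meas (m := fun t => m2 a b lam Lam t) (m2_meas hJM lam Lam)
    (fourier_meas' (bcd_int (cut2_bcd hJM hR hF)))).enorm.pow_const _

theorem int_sum_set {d : ℕ} (S : Set (EE d)) (g : ℕ → ℝ → EE d → ℝ≥0∞)
    (hg : ∀ j, Measurable fun q : ℝ × EE d => g j q.1 q.2) (N : ℕ) (c : ℝ≥0∞) (hc : c ≠ ⊤) :
    ∫⁻ t in Icc (1 : ℝ) 2, ∫⁻ x in S, c * ∑ j ∈ Finset.range N, g j t x =
      c * ∑ j ∈ Finset.range N, ∫⁻ t in Icc (1 : ℝ) 2, ∫⁻ x in S, g j t x := by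
  have h8 : ∀ t : ℝ, ∫⁻ x in S, c * ∑ j ∈ Finset.range N, g j t x =
      c * ∑ j ∈ Finset.range N, ∫⁻ x in S, g j t x := by
    intro t
    rw [lintegral_const_mul' _ _ hc, lintegral_finsetSum]
    intro j _
    have := (hg j).comp (measurable_prodMk_left (x := t))
    exact this
  simp only [h8]
  rw [lintegral_const_mul' _ _ hc, lintegral_finsetSum]
  intro j _
  exact (hg j).lintegral_prod_right' (ν := volume.restrict S)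

end Pool.Agent.H48.BR
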