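import Pool.Agent.H48.BR.GG4

/-!
# BR board, module GG, part 5: summation over the shells
-/

set_option autoImplicit false

namespace Pool.Agent.H48.BR

open MeasureTheory Set FourierTransform Filter
open Pool.Agent.H83.AR Pool.Agent.H93.AR Pool.Agent.H83.LS Pool.Agent.H54.LS Pool.Agent.H14.LS
open scoped ENNReal NNReal Topology

theorem mm_sum_abs {d : ℕ} {m : EE d → ℂ} (hm : Integrable m) {F : EE d → ℂ} (J : ℕ)
    (g : ℕ → EE d → ℂ) (hg : ∀ j, Integrable (g j))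
    (hF : ∀ x, F x = ∑ j ∈ Finset.range J, g j x) (x : EE d) :
    MM m F x = ∑ j ∈ Finset.range J, MM m (g j) x := by
  have h1 : ∀ ξ, 𝓕 F ξ = ∑ j ∈ Finset.range J, 𝓕 (g j) ξ := by
    intro ξ
    rw [← WAm.fourier_sum (Finset.range J) g (fun j _ => hg j) ξ]
    exact congrArg (fun g : EE d → ℂ => 𝓕 g ξ) (funext hF)
  unfold MM
  rw [← integral_finsetSum _ (fun j _ => sym_int2 hm (hg j) x)]
  congr 1
  funext ξ
  rw [h1 ξ, Finset.mul_sum, Finset.mul_sum]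

attribute [local irreducible] MM m2 mS GM AQ A1 A2 AL MK

theorem near (hPA : T_PAm) (hWP : T_WPm) (hS1 : T_S1) (hKF : T_KF) (hGMB : T_GMB)
    (hGC : T_GC) (hAM : T_AM2) (hAC : T_AC2) (hPLE : T_PLE) (hJM : T_JM) (a b : ℕ) (p η : ℝ)
    (ha : 2 ≤ a) (hb : 2 ≤ b) (hp : 2 < p)
    (hab : ((a : ℝ) + b - 1) * (p / 2 - 1) ≤ 1) (hη : 0 < η) :
    ∃ C : ℝ≥0, ∀ (lam Lam L A : ℝ) (f : EE (a + b) → ℂ), 1 ≤ lam → lam ≤ Lam ^ 2 → 1 ≤ Lam →
    Lam ≤ 4 * lam → 1 ≤ L → L ^ 2 ≤ 8 * Lam → BCd A f →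
    (∀ x, f x ≠ 0 → L ^ 2 ≤ Lam * ‖p2 a b x‖ ∧ ‖p2 a b x‖ ≤ 24) →
    ∫⁻ t in Icc (1 : ℝ) 2, ∫⁻ x in {x : EE (a + b) | L ^ 2 ≤ Lam * ‖p2 a b x‖},
      ‖MM (m2 a b lam Lam t) (AQ a b L f) x‖ₑ ^ p ≤
      C * ENNReal.ofReal (L ^ 2 * lam ^ η * A ^ (p - 2)) * ∫⁻ x, ‖f x‖ₑ ^ 2 := by
  have hp0 : 0 ≤ p := by linarith
  obtain ⟨C5, hC5⟩ := near_piece hPA hWP hS1 hKF hGMB hGC hAM hAC hPLE hJM a b p (η / 2) ha hb
    hp hab (by linarith)
  obtain ⟨Cc, hCc⟩ := count (η := η / 2) (q := p + 1) (by linarith) (by linarith)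
  refine ⟨Cc * Real.toNNReal (48 ^ (η / 2)) * C5, ?_⟩
  intro lam Lam L A f hlam hlL hLam hLL hL hL8 hA hsupp
  have hlam0 : 0 < lam := by linarith
  have hLam0 : 0 < Lam := by linarith
  have hA0 : 0 ≤ A := bcd_nonneg hA
  have hL2 : (1 : ℝ) ≤ L ^ 2 := one_le_pow₀ hL
  set r0 : ℝ := L ^ 2 / Lam with hr0
  have hr00 : 0 < r0 := by positivity
  have hr08 : r0 ≤ 8 := by
    rw [hr0, div_le_iff₀ hLam0]
    exact hL8
  have hLr : Lam * r0 = L ^ 2 := by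
    rw [hr0]
    field_simp
  obtain ⟨J, hJ1, hJ2⟩ := exists_nat_pow_near (x := 24 / r0) (y := (2 : ℝ))
    (by rw [le_div_iff₀ hr00]; linarith) (by norm_num)
  rw [le_div_iff₀ hr00] at hJ1
  rw [div_lt_iff₀ hr00] at hJ2
  obtain ⟨M, hM1, hM2, hM3⟩ := hCc (48 * lam) (by linarith)
  have hJM' : J ≤ M := by
    have h1 : (2 : ℝ) ^ J ≤ 2 ^ M := by
      refine le_trans ?_ hM1
      have h2 : (2 : ℝ) ^ J * (Lam * r0) ≤ 24 * Lam := by
        calc (2 : ℝ) ^ J * (Lam * r0) = (2 ^ J * r0) * Lam := by ring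
          _ ≤ 24 * Lam := mul_le_mul_of_nonneg_right hJ1 hLam0.le
      rw [hLr] at h2
      have h3 : (2 : ℝ) ^ J ≤ 2 ^ J * L ^ 2 := by
        have h4 : (0 : ℝ) < 2 ^ J := by positivity
        nlinarith
      linarith
    exact (pow_le_pow_iff_right₀ (by norm_num : (1 : ℝ) < 2)).mp h1
  have hJc : ((J : ℝ) + 1) ^ (p + 1) ≤ (Cc : ℝ) * (48 ^ (η / 2) * lam ^ (η / 2)) := by
    rw [← Real.mul_rpow (by norm_num) hlam0.le]
    refine le_trans (Real.rpow_le_rpow (by positivity) ?_ (by linarith)) hM3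
    have : (J : ℝ) ≤ M := by exact_mod_cast hJM'
    linarith
  have ha1 : 1 ≤ a := by omega
  have hb1 : 1 ≤ b := by omega
  set F : EE (a + b) → ℂ := AQ a b L f with hF
  have hFb : BCd A F := AQ_bcd hJM hAM ha1 hb1 hL hA
  have hFc : ∀ R : Set ℝ, cut2 R F = AQ a b L (cut2 R f) := fun R =>
    (AQ_cut hAM ha1 hb1 hL R f).symm
  have hfcut : cut2 (Ico r0 (2 ^ (J + 1) * r0)) f = f := by
    funext x
    unfold cut2
    by_cases h0 : f x = 0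
    · by_cases hx : x ∈ {x | ‖p2 a b x‖ ∈ Ico r0 ((2 : ℝ) ^ (J + 1) * r0)}
      · rw [indicator_of_mem hx]
      · rw [indicator_of_notMem hx, h0]
    · rw [indicator_of_mem]
      obtain ⟨h1, h2⟩ := hsupp x h0
      refine ⟨?_, lt_of_le_of_lt h2 hJ2⟩
      rw [hr0, div_le_iff₀ hLam0]
      linarith
  have hdec : ∀ x, F x = ∑ j ∈ Finset.range (J + 1), cut2 (shl r0 j) F x := by
    intro x
    rw [shl_sum hr00 F (J + 1) x, hFc, hfcut]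
  have one : ∀ j ∈ Finset.range (J + 1),
      ∫⁻ t in Icc (1 : ℝ) 2, ∫⁻ x in {x : EE (a + b) | L ^ 2 ≤ Lam * ‖p2 a b x‖},
        ‖MM (m2 a b lam Lam t) (cut2 (shl r0 j) F) x‖ₑ ^ p ≤
        C5 * ENNReal.ofReal (L ^ 2 * lam ^ (η / 2) * A ^ (p - 2)) * ∫⁻ x, ‖f x‖ₑ ^ 2 := by
    intro j hj
    rw [hFc]
    have h2j : (1 : ℝ) ≤ 2 ^ j := one_le_pow₀ (by norm_num)
    refine (hC5 lam Lam L A (2 ^ j * r0) (cut2 (shl r0 j) f) hlam hlL hLam hLL hL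
      (cut2_bcd hJM (shl_meas r0 j) hA) (by positivity) ?_ ?_).trans ?_
    · calc L ^ 2 = 1 * (Lam * r0) := by rw [hLr, one_mul]
        _ ≤ 2 ^ j * (Lam * r0) := mul_le_mul_of_nonneg_right h2j (by positivity)
        _ = _ := by ring
    · intro x hx
      have h1 := (cut2_supp hx).1
      refine ⟨h1.1, ?_⟩
      have h2 := h1.2.le
      rw [pow_succ] at h2
      linarith
    · exact mul_le_mul_right (cut2_sq_le f) _
  have hsum : ∀ t x, ‖MM (m2 a b lam Lam t) F x‖ₑ ^ p ≤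
      ((J + 1 : ℕ) : ℝ≥0∞) ^ p * ∑ j ∈ Finset.range (J + 1),
        ‖MM (m2 a b lam Lam t) (cut2 (shl r0 j) F) x‖ₑ ^ p := by
    intro t x
    rw [mm_sum_abs (m2_int hJM hlam0 Lam t) (J + 1) (fun j => cut2 (shl r0 j) F)
      (fun j => bcd_int (cut2_bcd hJM (shl_meas r0 j) hFb)) hdec x]
    exact (ENNReal.rpow_le_rpow (enorm_sum_le _ _) hp0).trans
      (fin_sum_pow (by linarith) (J + 1) _)
  have hNt : ((J + 1 : ℕ) : ℝ≥0∞) ^ p ≠ ⊤ :=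
    ENNReal.rpow_ne_top_of_nonneg hp0 (ENNReal.natCast_ne_top _)
  calc ∫⁻ t in Icc (1 : ℝ) 2, ∫⁻ x in {x : EE (a + b) | L ^ 2 ≤ Lam * ‖p2 a b x‖},
        ‖MM (m2 a b lam Lam t) F x‖ₑ ^ p
      ≤ ∫⁻ t in Icc (1 : ℝ) 2, ∫⁻ x in {x : EE (a + b) | L ^ 2 ≤ Lam * ‖p2 a b x‖},
        ((J + 1 : ℕ) : ℝ≥0∞) ^ p * ∑ j ∈ Finset.range (J + 1),
        ‖MM (m2 a b lam Lam t) (cut2 (shl r0 j) F) x‖ₑ ^ p :=
        lintegral_mono fun t => lintegral_mono fun x => hsum t x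
    _ = ((J + 1 : ℕ) : ℝ≥0∞) ^ p * ∑ j ∈ Finset.range (J + 1),
        ∫⁻ t in Icc (1 : ℝ) 2, ∫⁻ x in {x : EE (a + b) | L ^ 2 ≤ Lam * ‖p2 a b x‖},
          ‖MM (m2 a b lam Lam t) (cut2 (shl r0 j) F) x‖ₑ ^ p :=
        int_sum_set {x : EE (a + b) | L ^ 2 ≤ Lam * ‖p2 a b x‖} (fun j t x =>
          ‖MM (m2 a b lam Lam t) (cut2 (shl r0 j) F) x‖ₑ ^ p)
          (fun j => MM_meas_cut hJM hFb (shl_meas r0 j)) (J + 1) _ hNt
    _ ≤ ((J + 1 : ℕ) : ℝ≥0∞) ^ p * ∑ j ∈ Finset.range (J + 1),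
        (C5 * ENNReal.ofReal (L ^ 2 * lam ^ (η / 2) * A ^ (p - 2)) * ∫⁻ x, ‖f x‖ₑ ^ 2) := by
        gcongr with j hj
        exact one j hj
    _ = (((J + 1 : ℕ) : ℝ≥0∞) ^ p * ((J + 1 : ℕ) : ℝ≥0∞)) *
        (C5 * ENNReal.ofReal (L ^ 2 * lam ^ (η / 2) * A ^ (p - 2)) * ∫⁻ x, ‖f x‖ₑ ^ 2) := by
        rw [Finset.sum_const, Finset.card_range, nsmul_eq_mul]
        ring
    _ ≤ ((Cc * Real.toNNReal (48 ^ (η / 2)) : ℝ≥0) * ENNReal.ofReal (lam ^ (η / 2))) *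
        (C5 * ENNReal.ofReal (L ^ 2 * lam ^ (η / 2) * A ^ (p - 2)) * ∫⁻ x, ‖f x‖ₑ ^ 2) := by
        refine mul_le_mul_left ?_ _
        have h9 : ((J + 1 : ℕ) : ℝ≥0∞) ^ p * ((J + 1 : ℕ) : ℝ≥0∞) =
            ENNReal.ofReal (((J : ℝ) + 1) ^ (p + 1)) := by
          have h10 : ((J + 1 : ℕ) : ℝ≥0∞) = ENNReal.ofReal ((J : ℝ) + 1) := by
            rw [← ENNReal.ofReal_natCast]
            push_cast
            rfl
          rw [h10, ENNReal.ofReal_rpow_of_pos (by positivity), ← ENNReal.ofReal_mul (by positivity),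
            Real.rpow_add_one (by positivity)]
        rw [h9]
        have h11 : ((Cc * Real.toNNReal (48 ^ (η / 2)) : ℝ≥0) : ℝ≥0∞) *
            ENNReal.ofReal (lam ^ (η / 2)) =
            ENNReal.ofReal ((Cc : ℝ) * (48 ^ (η / 2) * lam ^ (η / 2))) := by
          rw [ENNReal.ofReal_mul (by positivity), ENNReal.ofReal_mul (by positivity),
            ENNReal.ofReal_coe_nnreal]
          push_cast
          rw [mul_assoc]
          rfl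
        rw [h11]
        exact ENNReal.ofReal_le_ofReal hJc
    _ = (Cc * Real.toNNReal (48 ^ (η / 2)) * C5 : ℝ≥0) *
        ENNReal.ofReal (L ^ 2 * lam ^ η * A ^ (p - 2)) * ∫⁻ x, ‖f x‖ₑ ^ 2 := by
        have h12 : ENNReal.ofReal (L ^ 2 * lam ^ η * A ^ (p - 2)) =
            ENNReal.ofReal (lam ^ (η / 2)) *
              ENNReal.ofReal (L ^ 2 * lam ^ (η / 2) * A ^ (p - 2)) := by
          rw [← ENNReal.ofReal_mul (by positivity)]
          congr 1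
          have h13 : lam ^ η = lam ^ (η / 2) * lam ^ (η / 2) := by
            rw [← Real.rpow_add hlam0]
            congr 1
            ring
          rw [h13]
          ring
        rw [h12]
        push_cast
        ring

end Pool.Agent.H48.BR
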